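import Pool.Agent.W_c0up_h38.Strat

/-! # Breaker wins -/

set_option autoImplicit false

namespace C0up

open scoped Classical
open C0lo

variable {N : ℕ} {ι : Type} [Fintype ι] {Z : ι → Finset (Sym2 (Fin N))} {a : ι → ℝ} {q h : ℕ}

/-- The play in which Breaker is greedy: the potential stays below `1`. -/
theorem Phi_le {b B : ℝ} (ha : ∀ i, 0 ≤ a i) (hb : 0 ≤ b)
    (hmass : ∑ i, a i * (1 / 2) ^ (Z i).card ≤ 1 / 4)
    (hBN : (N : ℝ) ^ 2 * (B * (2 * b * (1 / 2) ^ h)) < 1 / 4) (hB0 : 0 ≤ B)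
    (hST : ∀ P : Pos N, P.Valid → ∑ i, a i * P.mass (Z i) < 1 → ((P.near q h).card : ℝ) ≤ B)
    {π : ℕ → Sym2 (Fin N)} (h1 : ∀ i < N.choose 2, ¬ Sym2.IsDiag (π i))
    (h2 : ∀ i < N.choose 2, ∀ j < N.choose 2, π i = π j → i = j)
    (h3 : ∀ r, 4 * r + 2 < N.choose 2 → ∀ e, ¬ Sym2.IsDiag e → (∀ j < 4 * r + 2, π j ≠ e) →
      tote (ZZ Z) (co Z a q h b π (r + 1)) (Cs π (4 * r + 2)) (Ks π (4 * r + 2)) e ≤
      tote (ZZ Z) (co Z a q h b π (r + 1)) (Cs π (4 * r + 2)) (Ks π (4 * r + 2))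
        (π (4 * r + 2)))
    (h4 : ∀ r, 4 * r + 3 < N.choose 2 → ∀ e, ¬ Sym2.IsDiag e → (∀ j < 4 * r + 3, π j ≠ e) →
      tote (ZZ Z) (co Z a q h b π (r + 1)) (Cs π (4 * r + 3)) (Ks π (4 * r + 3)) e ≤
      tote (ZZ Z) (co Z a q h b π (r + 1)) (Cs π (4 * r + 3)) (Ks π (4 * r + 3))
        (π (4 * r + 3)))
    {r : ℕ} (hr : 4 * r + 2 ≤ N.choose 2) : Phi Z a q h b π r < 1 := by
  set E : ℝ := B * (2 * b * (1 / 2) ^ h) with hE
  have hE0 : 0 ≤ E := by positivity
  have hne : ∀ i j, i < N.choose 2 → j < N.choose 2 → i ≠ j → π i ≠ π j :=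
    fun i j hi hj hij he => hij (h2 i hi j hj he)
  have hnN : (N.choose 2 : ℝ) ≤ (N : ℝ) ^ 2 := by
    have h5 : N.choose 2 ≤ N ^ 2 := by
      rw [Nat.choose_two_right]
      have h6 : N * (N - 1) ≤ N * N := Nat.mul_le_mul_left N (Nat.sub_le N 1)
      rw [pow_two]
      omega
    exact_mod_cast h5
  have hsmall : ∀ r, 4 * r + 2 ≤ N.choose 2 → (3 : ℝ) / 4 + (r + 1) * E < 1 := by
    intro r hr
    have h5 : ((r : ℝ) + 1) ≤ N ^ 2 := by
      have h6 : ((r + 1 : ℕ) : ℝ) ≤ (N.choose 2 : ℝ) := by exact_mod_cast (by omega)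
      push_cast at h6
      linarith
    have h6 : ((r : ℝ) + 1) * E ≤ N ^ 2 * E := mul_le_mul_of_nonneg_right h5 hE0
    linarith
  have hent : ∀ r, 4 * r + 2 ≤ N.choose 2 → Psi Z a q h b π r < 1 →
      Ent Z q h b π r ≤ E := by
    intro r hr hP
    exact Ent_le hb (hST _ (ofPlay_valid h1 h2 hr) (lt_of_le_of_lt (struct_le h2 ha hb hr) hP))
  have hall : ∀ r, 4 * r + 2 ≤ N.choose 2 → Phi Z a q h b π r ≤ 3 / 4 + (r + 1) * E := by
    intro r
    induction r with
    | zero =>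
      intro hr
      have hC0 : Cs π 0 = ∅ := by
        unfold Cs
        rw [Finset.range_zero, Finset.filter_empty, Finset.image_empty]
      have hC1 : Cs π 1 = insert (π 0) ∅ := by
        rw [Cs_succ_claim (n := 0) (by omega), hC0]
      have hC2 : Cs π 2 = insert (π 1) (insert (π 0) ∅) := by
        rw [Cs_succ_claim (n := 1) (by omega), hC1]
      have hK0 : Ks π 0 = ∅ := by
        unfold Ks
        rw [Finset.range_zero, Finset.filter_empty, Finset.image_empty]
      have hK2 : Ks π 2 = ∅ := by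
        rw [Ks_succ_claim (n := 1) (by omega), Ks_succ_claim (n := 0) (by omega), hK0]
      have hPsi : Psi Z a q h b π 0 ≤ 3 / 4 := by
        have h5 := tot_first (Z := ZZ Z) (c := co Z a q h b π 0) (C := ∅) (K := ∅) (e1 := π 0)
          (e2 := π 1) (co_nonneg ha hb 0) (Finset.notMem_empty _) (by
            intro hm
            rcases Finset.mem_insert.1 hm with h | h
            · exact hne 1 0 (by omega) (by omega) (by omega) h
            · exact Finset.notMem_empty _ h)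
        have h6 : tot (ZZ Z) (co Z a q h b π 0) ∅ ∅ ≤ 1 / 4 := by
          unfold tot
          rw [Fintype.sum_sum_type]
          have h7 : ∑ A : Finset (Fin N), co Z a q h b π 0 (Sum.inr A) *
              w 2 ∅ ∅ (ZZ Z (Sum.inr A)) = 0 :=
            Finset.sum_eq_zero fun A _ => by
              show (0 : ℝ) * _ = 0
              rw [zero_mul]
          rw [h7, add_zero]
          refine le_trans (le_of_eq (Finset.sum_congr rfl fun i _ => ?_)) hmass
          show a i * w 2 ∅ ∅ (Z i) = _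
          unfold w
          rw [if_pos (Finset.disjoint_empty_right _), Finset.sdiff_empty, one_div]
        unfold Psi
        show tot (ZZ Z) (disc (ZZ Z) (co Z a q h b π 0) (π 0) (π 1)) (Cs π 2) (Ks π 2) ≤ 3 / 4
        rw [hC2, hK2]
        linarith
      have h5 := hent 0 hr (lt_of_le_of_lt hPsi (by norm_num))
      rw [Phi_eq]
      push_cast
      linarith
    | succ r ih =>
      intro hr
      have hih := ih (by omega)
      have hC1 : Cs π (4 * r + 3) = Cs π (4 * r + 2) := Cs_succ_kill (n := 4 * r + 2) (by omega)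
      have hC2 : Cs π (4 * r + 4) = Cs π (4 * r + 2) := by
        rw [Cs_succ_kill (n := 4 * r + 3) (by omega), hC1]
      have hC3 : Cs π (4 * r + 5) = insert (π (4 * r + 4)) (Cs π (4 * r + 2)) := by
        rw [Cs_succ_claim (n := 4 * r + 4) (by omega), hC2]
      have hC4 : Cs π (4 * r + 6) =
          insert (π (4 * r + 5)) (insert (π (4 * r + 4)) (Cs π (4 * r + 2))) := by
        rw [Cs_succ_claim (n := 4 * r + 5) (by omega), hC3]
      have hK1 : Ks π (4 * r + 3) = insert (π (4 * r + 2)) (Ks π (4 * r + 2)) :=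
        Ks_succ_kill (n := 4 * r + 2) (by omega)
      have hK2 : Ks π (4 * r + 4) =
          insert (π (4 * r + 3)) (insert (π (4 * r + 2)) (Ks π (4 * r + 2))) := by
        rw [Ks_succ_kill (n := 4 * r + 3) (by omega), hK1]
      have hK3 : Ks π (4 * r + 6) =
          insert (π (4 * r + 3)) (insert (π (4 * r + 2)) (Ks π (4 * r + 2))) := by
        rw [Ks_succ_claim (n := 4 * r + 5) (by omega), Ks_succ_claim (n := 4 * r + 4) (by omega),
          hK2]
      have hn1 : π (4 * r + 4) ∉ Cs π (4 * r + 2) := by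
        intro hm
        obtain ⟨i, hi, _, hie⟩ := mem_Cs.1 hm
        exact hne i (4 * r + 4) (by omega) (by omega) (by omega) hie
      have hn2 : π (4 * r + 5) ∉ insert (π (4 * r + 4)) (Cs π (4 * r + 2)) := by
        rw [← hC3]
        intro hm
        obtain ⟨i, hi, _, hie⟩ := mem_Cs.1 hm
        exact hne i (4 * r + 5) (by omega) (by omega) (by omega) hie
      have h5 := h3 r (by omega) (π (4 * r + 4)) (h1 _ (by omega))
        (fun j hj => hne _ _ (by omega) (by omega) (by omega))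
      have h6 := h4 r (by omega) (π (4 * r + 5)) (h1 _ (by omega))
        (fun j hj => hne _ _ (by omega) (by omega) (by omega))
      rw [hC1, hK1] at h6
      have hPsi : Psi Z a q h b π (r + 1) ≤ Phi Z a q h b π r := by
        have h7 := tot_round (Z := ZZ Z) (co_nonneg ha hb (r + 1)) hn1 hn2 h5 h6
        unfold Psi Phi
        show tot (ZZ Z) (disc (ZZ Z) (co Z a q h b π (r + 1)) (π (4 * r + 4)) (π (4 * r + 5)))
          (Cs π (4 * r + 6)) (Ks π (4 * r + 6)) ≤ _
        rw [hC4, hK3]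
        exact h7
      have h8 := hsmall r (by omega)
      have h9 := hent (r + 1) hr (lt_of_le_of_lt hPsi (lt_of_le_of_lt hih h8))
      rw [Phi_eq]
      push_cast
      linarith
  exact lt_of_le_of_lt (hall r hr) (hsmall r hr)

/-- **The criterion.** Structures `Z i` with coefficients `a i` (total initial mass at most `1/4`);
if in every legal position with structure mass `< 1` at most `B` alive `q`-sets have at most `h`
unclaimed edges, and `B` is small, then `A(N) < q`. -/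
theorem achievement_lt {B : ℝ} (ha : ∀ i, 0 ≤ a i)
    (hmass : ∑ i, a i * (1 / 2) ^ (Z i).card ≤ 1 / 4) (hB0 : 0 ≤ B)
    (hBN : (N : ℝ) ^ 2 * (B * (8 * (4 / 3) ^ (h / 2) * (1 / 2) ^ h)) < 1 / 4)
    (hST : ∀ P : Pos N, P.Valid → ∑ i, a i * P.mass (Z i) < 1 → ((P.near q h).card : ℝ) ≤ B)
    (hN : 2 ≤ N) (hq : 1 ≤ q) (hh1 : 1 ≤ h) (hh : h < q.choose 2) :
    C0ce.achievement N < q := by
  by_contra hcon
  rw [not_lt] at hcon
  -- a winning strategy of Maker
  have hbdd : BddAbove {q : ℕ | 2 ≤ q ∧ ∃ σ : List (Sym2 (Fin N)) → Sym2 (Fin N),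
    (∀ l : List (Sym2 (Fin N)), l.Nodup → (∀ e ∈ l, ¬ Sym2.IsDiag e) →
        l.length < N.choose 2 → ¬ Sym2.IsDiag (σ l) ∧ σ l ∉ l) ∧
    ∀ π : ℕ → Sym2 (Fin N),
      (∀ i < N.choose 2, ¬ Sym2.IsDiag (π i)) →
      (∀ i < N.choose 2, ∀ j < N.choose 2, π i = π j → i = j) →
      (∀ i < N.choose 2, i % 4 < 2 → π i = σ ((List.range i).map π)) →
      ∃ s : Finset (Fin N), s.card = q ∧
        ∀ x ∈ s, ∀ y ∈ s, x ≠ y →
          ∃ i < N.choose 2, i % 4 < 2 ∧ π i = s(x, y)} := by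
    refine ⟨N, ?_⟩
    rintro k ⟨_, σ, hσ, hwin⟩
    obtain ⟨π, h1, h2, h3, _⟩ := C0ce.play_exists (by omega) (fun i => i % 4 < 2) σ hσ
      (fun _ _ => 0)
    obtain ⟨s, hs, _⟩ := hwin π h1 h2 h3
    rw [← hs]
    exact (Finset.card_le_univ s).trans (by rw [Fintype.card_fin])
  have hne : {q : ℕ | 2 ≤ q ∧ ∃ σ : List (Sym2 (Fin N)) → Sym2 (Fin N),
    (∀ l : List (Sym2 (Fin N)), l.Nodup → (∀ e ∈ l, ¬ Sym2.IsDiag e) →
        l.length < N.choose 2 → ¬ Sym2.IsDiag (σ l) ∧ σ l ∉ l) ∧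
    ∀ π : ℕ → Sym2 (Fin N),
      (∀ i < N.choose 2, ¬ Sym2.IsDiag (π i)) →
      (∀ i < N.choose 2, ∀ j < N.choose 2, π i = π j → i = j) →
      (∀ i < N.choose 2, i % 4 < 2 → π i = σ ((List.range i).map π)) →
      ∃ s : Finset (Fin N), s.card = q ∧
        ∀ x ∈ s, ∀ y ∈ s, x ≠ y →
          ∃ i < N.choose 2, i % 4 < 2 ∧ π i = s(x, y)}.Nonempty := by
    by_contra hemp
    rw [Set.not_nonempty_iff_eq_empty] at hemp
    have h5 : C0ce.achievement N = 0 := by
      unfold C0ce.achievement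
      rw [hemp]
      exact csSup_empty
    omega
  obtain ⟨_, σ, hσ, hwin⟩ := Nat.sSup_mem hne hbdd
  have : NeZero N := ⟨by omega⟩
  set b : ℝ := 4 * (4 / 3) ^ (h / 2) with hb
  have hb0 : 0 ≤ b := by positivity
  obtain ⟨π, h1, h2, h3, h4⟩ := C0ce.play_exists (by omega) (fun i => i % 4 < 2) σ hσ
    (valB Z a q h b)
  obtain ⟨s, hs, hs2⟩ := hwin π h1 h2 h3
  obtain ⟨A, hAs, hAq⟩ := Finset.exists_subset_card_eq (show q ≤ s.card by rw [hs]; exact hcon)
  have hA : ∀ x ∈ A, ∀ y ∈ A, x ≠ y → ∃ i < N.choose 2, i % 4 < 2 ∧ π i = s(x, y) :=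
    fun x hx y hy hxy => hs2 x (hAs hx) y (hAs hy) hxy
  have hAe : ∀ e ∈ ed A, ∃ i < N.choose 2, i % 4 < 2 ∧ π i = e := by
    intro e he
    rw [mem_ed] at he
    induction e using Sym2.ind with
    | _ u v =>
      exact hA u (he.1 u (Sym2.mem_mk_left u v)) v (he.1 v (Sym2.mem_mk_right u v))
        (fun h => he.2 h)
  -- the last full turn of Maker
  have hcard : (ed A).card = q.choose 2 := by rw [card_ed, hAq]
  have hch : 2 ≤ N.choose 2 := by
    have h5 : (ed A).card ≤ N.choose 2 := by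
      rw [hcard, ← hAq]
      exact Nat.choose_le_choose 2 ((Finset.card_le_univ A).trans (by rw [Fintype.card_fin]))
    omega
  set R := (N.choose 2 - 2) / 4 with hR
  have hR1 : 4 * R + 2 ≤ N.choose 2 := by omega
  have hR2 : N.choose 2 ≤ 4 * R + 5 := by omega
  have hPhi := Phi_le (Z := Z) (a := a) (q := q) (h := h) (b := b) (B := B) ha hb0 hmass (by
      rw [hb]
      refine lt_of_eq_of_lt ?_ hBN
      ring) hB0 hST h1 h2
    (fun r hr e he hfree => by
      have h5 := h4 (4 * r + 2) hr (by omega) e he hfree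
      rwa [valB_eq π (r := r) (by omega) (by omega), valB_eq π (r := r) (by omega) (by omega)]
        at h5)
    (fun r hr e he hfree => by
      have h5 := h4 (4 * r + 3) hr (by omega) e he hfree
      rwa [valB_eq π (r := r) (by omega) (by omega), valB_eq π (r := r) (by omega) (by omega)]
        at h5) (r := R) hR1
  -- the clique has at most one unclaimed edge
  have hU1 : U π (R + 1) A ≤ 1 := by
    unfold U
    rw [show 4 * (R + 1) - 2 = 4 * R + 2 by omega]
    refine (Finset.card_le_card (t := {π (4 * R + 4)}) ?_).trans (by rw [Finset.card_singleton])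
    intro e he
    rw [Finset.mem_sdiff] at he
    obtain ⟨i, hi, hi2, hie⟩ := hAe e he.1
    rw [Finset.mem_singleton, ← hie]
    by_cases h5 : i < 4 * R + 2
    · exact absurd (mem_Cs.2 ⟨i, h5, hi2, hie⟩) he.2
    · rw [show i = 4 * R + 4 by omega]
  have hU0 : h < U π 0 A := by
    have hC0 : Cs π (4 * 0 - 2) = ∅ := by
      show Cs π 0 = ∅
      unfold Cs
      rw [Finset.range_zero, Finset.filter_empty, Finset.image_empty]
    unfold U
    rw [hC0, Finset.sdiff_empty, hcard]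
    exact hh
  have halive : Disjoint (ed A) (Ks π (4 * R + 2)) := by
    rw [Finset.disjoint_left]
    intro e he hk
    obtain ⟨i, hi, hi2, hie⟩ := hAe e he
    obtain ⟨j, hj, hj2, hje⟩ := mem_Ks.1 hk
    have := h2 i hi j (by omega) (hie.trans hje.symm)
    omega
  obtain ⟨d, hd, hd2⟩ := co_inr (Z := Z) (a := a) (q := q) (h := h) (b := b) h2 ha hb0 hAq hU0
    (r := R + 1) (by omega) (hU1.trans hh1)
  have hle : co Z a q h b π (R + 1) (Sum.inr A) *
      w 2 (Cs π (4 * R + 2)) (Ks π (4 * R + 2)) (ZZ Z (Sum.inr A)) ≤ Phi Z a q h b π R := by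
    unfold Phi tot
    exact Finset.single_le_sum (f := fun j => co Z a q h b π (R + 1) j *
      w 2 (Cs π (4 * R + 2)) (Ks π (4 * R + 2)) (ZZ Z j))
      (fun j _ => mul_nonneg (co_nonneg ha hb0 _ j) (w_nonneg (by norm_num)))
      (Finset.mem_univ (Sum.inr A))
  have hw : (1 : ℝ) / 2 ≤ w 2 (Cs π (4 * R + 2)) (Ks π (4 * R + 2)) (ZZ Z (Sum.inr A)) := by
    show (1 : ℝ) / 2 ≤ w 2 (Cs π (4 * R + 2)) (Ks π (4 * R + 2)) (ed A)
    unfold w
    rw [if_pos halive]
    have h5 : (ed A \ Cs π (4 * R + 2)).card ≤ 1 := by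
      have h6 := hU1
      unfold U at h6
      rwa [show 4 * (R + 1) - 2 = 4 * R + 2 by omega] at h6
    have h7 : ((2 : ℝ)⁻¹) ^ 1 ≤ (2⁻¹) ^ (ed A \ Cs π (4 * R + 2)).card :=
      pow_le_pow_of_le_one (by norm_num) (by norm_num) h5
    rw [pow_one] at h7
    linarith
  have hco : 4 ≤ co Z a q h b π (R + 1) (Sum.inr A) := by
    refine le_trans ?_ hd2
    have h5 : ((3 : ℝ) / 4) ^ (h / 2) ≤ (3 / 4) ^ d :=
      pow_le_pow_of_le_one (by norm_num) (by norm_num) (by omega)
    have h6 : ((4 : ℝ) / 3) ^ (h / 2) * (3 / 4) ^ (h / 2) = 1 := by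
      rw [← mul_pow]
      norm_num
    have h7 : b * (3 / 4) ^ (h / 2) ≤ b * (3 / 4) ^ d := mul_le_mul_of_nonneg_left h5 hb0
    have h8 : b * (3 / 4) ^ (h / 2) = 4 := by
      rw [hb, mul_assoc, h6, mul_one]
    linarith
  have hfin : 4 * (1 / 2) ≤ co Z a q h b π (R + 1) (Sum.inr A) *
      w 2 (Cs π (4 * R + 2)) (Ks π (4 * R + 2)) (ZZ Z (Sum.inr A)) :=
    mul_le_mul hco hw (by norm_num) (by linarith)
  linarith

end C0up
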