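import Pool.Agent.W_c0up_h38.VWin
import Pool.Agent.W_c0up_h14.DefsG

/-!
# The two criteria over `C0st.GP`
-/

set_option autoImplicit false

namespace C0up

open scoped Classical
open C0lo

variable {N : ℕ} {ι : Type} [Fintype ι] {Z : ι → Finset (Sym2 (Fin N))} {a : ι → ℝ} {q h : ℕ}

/-- general positions in the form of `C0st` -/
def GPos.toGP (P : GPos N) : C0st.GP N := ⟨P.C, P.K, P.D⟩

theorem GPos.Valid.toGP {P : GPos N} (hP : P.Valid) {Dl : ℕ}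
    (hDl : 32 * (N : ℝ) ^ 4 ≤ 2 ^ Dl) : P.toGP.Valid Dl := by
  refine ⟨hP.ndC, hP.ndK, hP.CK, hP.src, hP.tgt, hP.uniq, fun g => ?_, hP.acy⟩
  have h1 := (hP.ind g).trans hDl
  exact (pow_le_pow_iff_right₀ (by norm_num)).1 h1

theorem GPos.toGP_mass (P : GPos N) (X : Finset (Sym2 (Fin N))) : P.toGP.mass X = P.mass X := rfl

theorem GPos.toGP_near (P : GPos N) (q h : ℕ) : P.toGP.near q h = P.near q h := rfl

/-- the criterion for Avoider -/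
theorem avoid_lt {Dl : ℕ} {B : ℝ} (ha : ∀ i, 0 ≤ a i)
    (hmass : ∑ i, a i * (1 / 2) ^ (Z i).card ≤ 1 / 4) (hB0 : 0 ≤ B)
    (hBN : (N : ℝ) ^ 2 * (B * (16 * (4 / 3) ^ h * (1 / 2) ^ h)) < 1 / 4)
    (hDl : 32 * (N : ℝ) ^ 4 ≤ 2 ^ Dl)
    (hST : ∀ P : C0st.GP N, P.Valid Dl → ∑ i, a i * P.mass (Z i) < 1 →
      ((P.near q h).card : ℝ) ≤ B)
    (hN : 2 ≤ N) (hq : 1 ≤ q) (hh2 : 2 ≤ h) (hh : h < q.choose 2) :
    C0ce.avoidance N < q :=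
  avoidance_lt ha hmass hB0 hBN (fun P hP hs => hST P.toGP (hP.toGP hDl) hs) hN hq hh2 hh

/-- the criterion for Breaker -/
theorem maker_lt {Dl : ℕ} {B : ℝ} (ha : ∀ i, 0 ≤ a i)
    (hmass : ∑ i, a i * (1 / 2) ^ (Z i).card ≤ 1 / 4) (hB0 : 0 ≤ B)
    (hBN : (N : ℝ) ^ 2 * (B * (16 * (4 / 3) ^ h * (1 / 2) ^ h)) < 1 / 4)
    (hDl : 32 * (N : ℝ) ^ 4 ≤ 2 ^ Dl)
    (hST : ∀ P : C0st.GP N, P.Valid Dl → ∑ i, a i * P.mass (Z i) < 1 →
      ((P.near q h).card : ℝ) ≤ B)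
    (hN : 2 ≤ N) (hq : 1 ≤ q) (hh1 : 1 ≤ h) (hh : h < q.choose 2) :
    C0ce.achievement N < q := by
  refine achievement_lt_G ha hmass hB0 ?_ (fun P hP hs => hST P.toGP (hP.toGP hDl) hs) hN hq
    hh1 hh
  refine lt_of_le_of_lt ?_ hBN
  refine mul_le_mul_of_nonneg_left ?_ (by positivity)
  refine mul_le_mul_of_nonneg_left ?_ hB0
  refine mul_le_mul_of_nonneg_right ?_ (by positivity)
  have h1 : ((4 : ℝ) / 3) ^ (h / 2) ≤ (4 / 3) ^ h :=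
    pow_le_pow_right₀ (by norm_num) (Nat.div_le_self _ _)
  have h2 : (0 : ℝ) ≤ (4 / 3) ^ h := by positivity
  linarith

end C0up
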