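import Pool.Agent.W_c0up_h38.Crit
import Pool.Agent.W_c0lo_h38.Win

/-!
# From the static theorem to the asymptotics of both numbers
-/

set_option autoImplicit false

namespace C0up

open scoped Classical
open C0lo

/-- The static theorem: for `η ≤ 1 / 200` and large `N` there are structures such that in every
legal general position of structure mass `< 1` less than `2 ^ (0.58 η L²)` alive `q`-sets have at
most `η L²` unclaimed edges, `q = ⌈(2 + 20 η) L⌉`, `L = log₂ N`. -/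
def Static : Prop :=
  ∀ η : ℝ, 0 < η → η ≤ 1 / 200 → ∀ᶠ N : ℕ in Filter.atTop,
    ∃ (ι : Type) (_ : Fintype ι) (Z : ι → Finset (Sym2 (Fin N))) (a : ι → ℝ),
      (∀ i, 0 ≤ a i) ∧ ∑ i, a i * (1 / 2) ^ (Z i).card ≤ 1 / 4 ∧
      ∀ Dl : ℕ, (Dl : ℝ) ≤ 10 * (Real.logb 2 N) ^ 2 → ∀ P : C0st.GP N, P.Valid Dl →
        ∑ i, a i * P.mass (Z i) < 1 →
        ((P.near ⌈(2 + 20 * η) * Real.logb 2 N⌉₊ ⌊η * (Real.logb 2 N) ^ 2⌋₊).card : ℝ) ≤
          (2 : ℝ) ^ (58 / 100 * η * (Real.logb 2 N) ^ 2)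

/-- `2 ^ 0.584 ≤ 3 / 2` -/
theorem two_pow_le : (2 : ℝ) ^ (73 / 125 : ℝ) ≤ 3 / 2 := by
  have h1 : ((2 : ℝ) ^ (73 / 125 : ℝ)) ^ (125 : ℕ) ≤ (3 / 2 : ℝ) ^ (125 : ℕ) := by
    rw [← Real.rpow_natCast, ← Real.rpow_mul (by norm_num)]
    have h2 : (73 / 125 : ℝ) * ((125 : ℕ) : ℝ) = ((73 : ℕ) : ℝ) := by norm_num
    rw [h2, Real.rpow_natCast]
    norm_num
  exact le_of_pow_le_pow_left₀ (by norm_num) (by norm_num) h1

/-- `(2 / 3) ^ h ≤ 2 ^ (-0.584 h)` -/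
theorem two_third_pow (h : ℕ) : ((4 : ℝ) / 3) ^ h * (1 / 2) ^ h ≤ 2 ^ (-(73 / 125 * (h : ℝ))) := by
  rw [← mul_pow]
  have h1 : (4 : ℝ) / 3 * (1 / 2) = 2 / 3 := by norm_num
  rw [h1]
  have h2 : (2 : ℝ) ^ (-(73 / 125 * (h : ℝ))) = ((2 : ℝ) ^ (-(73 / 125) : ℝ)) ^ h := by
    rw [← Real.rpow_natCast, ← Real.rpow_mul (by norm_num)]
    congr 1
    ring
  rw [h2]
  refine pow_le_pow_left₀ (by norm_num) ?_ h
  rw [Real.rpow_neg (by norm_num), le_inv_comm₀ (by norm_num) (by positivity)]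
  refine two_pow_le.trans ?_
  norm_num

theorem tendsto_L : Filter.Tendsto (fun N : ℕ => Real.logb 2 (N : ℝ)) Filter.atTop Filter.atTop :=
  (Real.tendsto_logb_atTop (by norm_num)).comp tendsto_natCast_atTop_atTop

/-- the numerical conditions of the criteria -/
theorem conds {η : ℝ} (hη : 0 < η) (hη1 : η ≤ 1 / 200) : ∀ᶠ N : ℕ in Filter.atTop,
    2 ≤ N ∧ 1 ≤ ⌈(2 + 20 * η) * Real.logb 2 N⌉₊ ∧ 2 ≤ ⌊η * (Real.logb 2 N) ^ 2⌋₊ ∧
    ⌊η * (Real.logb 2 N) ^ 2⌋₊ < (⌈(2 + 20 * η) * Real.logb 2 N⌉₊).choose 2 ∧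
    ((⌈4 * Real.logb 2 N⌉₊ + 5 : ℕ) : ℝ) ≤ 10 * (Real.logb 2 N) ^ 2 ∧
    32 * (N : ℝ) ^ 4 ≤ 2 ^ (⌈4 * Real.logb 2 N⌉₊ + 5) ∧
    (N : ℝ) ^ 2 * ((2 : ℝ) ^ (58 / 100 * η * (Real.logb 2 N) ^ 2) *
      (16 * (4 / 3) ^ ⌊η * (Real.logb 2 N) ^ 2⌋₊ * (1 / 2) ^ ⌊η * (Real.logb 2 N) ^ 2⌋₊)) <
        1 / 4 := by
  filter_upwards [tendsto_L.eventually_ge_atTop (10 + 1000 / η),
    Filter.eventually_ge_atTop 2] with N hL hN
  set L : ℝ := Real.logb 2 N with hLdef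
  have hη' : 0 < 1000 / η := by positivity
  have hL10 : 10 ≤ L := by linarith
  have hLη : 1000 ≤ η * L := by
    have h1 : 1000 / η ≤ L := by linarith
    rw [div_le_iff₀ hη] at h1
    linarith
  have hN0 : (0 : ℝ) < N := by exact_mod_cast (show 0 < N by omega)
  have hNL : (2 : ℝ) ^ L = N := Real.rpow_logb (by norm_num) (by norm_num) hN0
  have hηL2 : 1000 * L ≤ η * L ^ 2 := by nlinarith
  have hηL2' : η * L ^ 2 ≤ L ^ 2 / 200 := by nlinarith [sq_nonneg L]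
  have hfl : (⌊η * L ^ 2⌋₊ : ℝ) ≤ η * L ^ 2 := Nat.floor_le (by positivity)
  have hfl2 : η * L ^ 2 - 1 < (⌊η * L ^ 2⌋₊ : ℝ) := Nat.sub_one_lt_floor _
  have hce : (2 + 20 * η) * L ≤ (⌈(2 + 20 * η) * L⌉₊ : ℝ) := Nat.le_ceil _
  have hce2 : 2 * L ≤ (⌈(2 + 20 * η) * L⌉₊ : ℝ) := by
    refine le_trans ?_ hce
    nlinarith
  refine ⟨hN, ?_, ?_, ?_, ?_, ?_, ?_⟩
  · have : (1 : ℝ) ≤ (⌈(2 + 20 * η) * L⌉₊ : ℝ) := by linarith
    exact_mod_cast this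
  · refine Nat.le_floor ?_
    push_cast
    linarith
  · have h1 : (⌊η * L ^ 2⌋₊ : ℝ) < ((⌈(2 + 20 * η) * L⌉₊).choose 2 : ℝ) := by
      rw [Nat.cast_choose_two]
      nlinarith
    exact_mod_cast h1
  · push_cast
    have h1 : (⌈4 * L⌉₊ : ℝ) < 4 * L + 1 := Nat.ceil_lt_add_one (by linarith)
    nlinarith
  · have h1 : (32 : ℝ) * (N : ℝ) ^ 4 = 2 ^ (4 * L + 5) := by
      rw [Real.rpow_add (by norm_num), mul_comm (4 : ℝ) L, Real.rpow_mul (by norm_num), hNL]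
      norm_num
      ring
    rw [h1]
    have h2 : (2 : ℝ) ^ (⌈4 * L⌉₊ + 5) = (2 : ℝ) ^ (((⌈4 * L⌉₊ + 5 : ℕ)) : ℝ) := by
      rw [Real.rpow_natCast]
    rw [h2]
    refine Real.rpow_le_rpow_of_exponent_le (by norm_num) ?_
    push_cast
    have := Nat.le_ceil (4 * L)
    linarith
  · have h1 := two_third_pow ⌊η * L ^ 2⌋₊
    have h2 : (2 : ℝ) ^ (-(73 / 125 * (⌊η * L ^ 2⌋₊ : ℝ))) ≤ 2 ^ (-(73 / 125 * (η * L ^ 2 - 1))) :=
      Real.rpow_le_rpow_of_exponent_le (by norm_num) (by linarith)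
    have h3 : (N : ℝ) ^ 2 = 2 ^ (2 * L) := by
      rw [mul_comm, Real.rpow_mul (by norm_num), hNL]
      norm_num
    have h4 : (N : ℝ) ^ 2 * ((2 : ℝ) ^ (58 / 100 * η * L ^ 2) *
        (16 * (4 / 3) ^ ⌊η * L ^ 2⌋₊ * (1 / 2) ^ ⌊η * L ^ 2⌋₊)) ≤
        2 ^ (2 * L) * (2 ^ (58 / 100 * η * L ^ 2) * (2 ^ (4 : ℝ) *
          2 ^ (-(73 / 125 * (η * L ^ 2 - 1))))) := by
      rw [h3]
      refine mul_le_mul_of_nonneg_left ?_ (by positivity)
      refine mul_le_mul_of_nonneg_left ?_ (by positivity)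
      rw [mul_assoc]
      have h5 : (2 : ℝ) ^ (4 : ℝ) = 16 := by norm_num
      rw [h5]
      exact mul_le_mul_of_nonneg_left (h1.trans h2) (by norm_num)
    refine lt_of_le_of_lt h4 ?_
    rw [← Real.rpow_add (by norm_num), ← Real.rpow_add (by norm_num),
      ← Real.rpow_add (by norm_num)]
    have h6 : (1 : ℝ) / 4 = 2 ^ (-2 : ℝ) := by
      rw [Real.rpow_neg (by norm_num)]
      norm_num
    rw [h6]
    refine Real.rpow_lt_rpow_of_exponent_lt (by norm_num) ?_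
    nlinarith

/-- both numbers are at most `(2 + 20 η) log₂ N` -/
theorem upper_of_static (hS : Static) {η : ℝ} (hη : 0 < η) (hη1 : η ≤ 1 / 200) :
    ∀ᶠ N : ℕ in Filter.atTop,
      (C0ce.achievement N : ℝ) ≤ (2 + 20 * η) * Real.logb 2 N ∧
      (C0ce.avoidance N : ℝ) ≤ (2 + 20 * η) * Real.logb 2 N := by
  filter_upwards [hS η hη hη1, conds hη hη1] with N hN hc
  obtain ⟨ι, _, Z, a, ha, hmass, hST⟩ := hN
  obtain ⟨c1, c2, c3, c4, c5, c6, c7⟩ := hc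
  have hst := fun P hP hs => hST _ c5 P hP hs
  have key : ∀ m : ℕ, m < ⌈(2 + 20 * η) * Real.logb 2 N⌉₊ →
      (m : ℝ) ≤ (2 + 20 * η) * Real.logb 2 N := by
    intro m hm
    exact (Nat.lt_ceil.1 hm).le
  exact ⟨key _ (maker_lt ha hmass (by positivity) c7 c6 hst c1 c2 (by omega) c4),
    key _ (avoid_lt ha hmass (by positivity) c7 c6 hst c1 c2 c3 c4)⟩

theorem log_small {ε : ℝ} (hε : 0 < ε) : ∀ᶠ N : ℕ in Filter.atTop,
    21 * Real.logb 2 (Real.logb 2 N) ≤ ε * Real.logb 2 N := by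
  have h1 : ∀ᶠ x : ℝ in Filter.atTop, 21 * Real.logb 2 x ≤ ε * x := by
    have hl2 : 0 < Real.log 2 := Real.log_pos (by norm_num)
    have h2 := Real.isLittleO_log_id_atTop.def (c := ε * Real.log 2 / 21) (by positivity)
    filter_upwards [h2, Filter.eventually_ge_atTop 1] with x hx hx1
    rw [Real.norm_of_nonneg (Real.log_nonneg hx1)] at hx
    have h3 : ‖id x‖ = x := by
      rw [id, Real.norm_of_nonneg (by linarith)]
    rw [h3] at hx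
    unfold Real.logb
    rw [mul_div_assoc', div_le_iff₀ hl2]
    have h4 := mul_le_mul_of_nonneg_left hx (show (0 : ℝ) ≤ 21 by norm_num)
    refine h4.trans (le_of_eq ?_)
    ring
  exact tendsto_L.eventually h1

theorem tendsto_of_bounds {f : ℕ → ℝ}
    (hlo : ∃ N₀ : ℕ, ∀ N : ℕ, N₀ ≤ N →
      2 * Real.logb 2 N - 21 * Real.logb 2 (Real.logb 2 N) ≤ f N)
    (hup : ∀ η : ℝ, 0 < η → η ≤ 1 / 200 → ∀ᶠ N : ℕ in Filter.atTop,
      f N ≤ (2 + 20 * η) * Real.logb 2 N) :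
    Filter.Tendsto (fun N : ℕ => f N / Real.logb 2 N) Filter.atTop (nhds 2) := by
  have hlo' : ∀ᶠ N : ℕ in Filter.atTop,
      2 * Real.logb 2 N - 21 * Real.logb 2 (Real.logb 2 N) ≤ f N := by
    obtain ⟨N₀, h⟩ := hlo
    filter_upwards [Filter.eventually_ge_atTop N₀] with N hN
    exact h N hN
  refine tendsto_order.2 ⟨fun a ha => ?_, fun a ha => ?_⟩
  · filter_upwards [hlo', log_small (show 0 < (2 - a) / 2 by linarith),
      tendsto_L.eventually_gt_atTop 0] with N h1 h2 h3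
    rw [lt_div_iff₀ h3]
    nlinarith
  · have hη : 0 < min (1 / 200) ((a - 2) / 40) := by
      refine lt_min (by norm_num) ?_
      linarith
    filter_upwards [hup _ hη (min_le_left _ _), tendsto_L.eventually_gt_atTop 0] with N h1 h3
    rw [div_lt_iff₀ h3]
    have h4 : min (1 / 200) ((a - 2) / 40) ≤ (a - 2) / 40 := min_le_right _ _
    nlinarith

/-- the asymptotics of both numbers, from the static theorem -/
theorem asymptotics (hS : Static) :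
    Filter.Tendsto (fun N : ℕ => (C0ce.achievement N : ℝ) / Real.logb 2 N) Filter.atTop
      (nhds 2) ∧
    Filter.Tendsto (fun N : ℕ => (C0ce.avoidance N : ℝ) / Real.logb 2 N) Filter.atTop
      (nhds 2) := by
  obtain ⟨N₀, hN₀⟩ := lower
  exact ⟨tendsto_of_bounds ⟨N₀, fun N hN => (hN₀ N hN).1⟩ fun η h1 h2 =>
      (upper_of_static hS h1 h2).mono fun N h => h.1,
    tendsto_of_bounds ⟨N₀, fun N hN => (hN₀ N hN).2⟩ fun η h1 h2 =>
      (upper_of_static hS h1 h2).mono fun N h => h.2⟩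

end C0up
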