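import Pool.Agent.W_c0up_h38.Win

/-!
# General positions (for Maker-Breaker and Avoider-Forcer)

`C` = edges of Maker / Avoider, `K` = edges of Breaker / Forcer, `D` = set of links `(e, p e)`: every
claimed edge `e` has at most one partner `p e`; every edge is the partner of few edges.
-/

set_option autoImplicit false

namespace C0up

open scoped Classical
open C0lo

variable {N : ℕ}

/-- A general position: `C` = edges of the first player, `K` = edges of the second player, `D` = the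
links `(e, p e)`. -/
structure GPos (N : ℕ) where
  /-- the edges of Maker / Avoider -/
  C : Finset (Sym2 (Fin N))
  /-- the edges of Breaker / Forcer -/
  K : Finset (Sym2 (Fin N))
  /-- the links `(e, p e)` -/
  D : Finset (Sym2 (Fin N) × Sym2 (Fin N))

/-- the number of links with both edges in `Z` -/
noncomputable def GPos.dbl (P : GPos N) (Z : Finset (Sym2 (Fin N))) : ℕ :=
  (P.D.filter (fun d => d.1 ∈ Z ∧ d.2 ∈ Z)).card

/-- the mass of the edge set `Z` -/
noncomputable def GPos.mass (P : GPos N) (Z : Finset (Sym2 (Fin N))) : ℝ :=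
  if Disjoint Z P.K then (1 / 2) ^ (Z \ P.C).card * (3 / 4) ^ (P.dbl Z) else 0

/-- the alive cliques with at most `h` unclaimed edges -/
noncomputable def GPos.near (P : GPos N) (q h : ℕ) : Finset (Finset (Fin N)) :=
  Finset.univ.filter (fun A => A.card = q ∧ Disjoint (ed A) P.K ∧ (ed A \ P.C).card ≤ h)

/-- legal general positions -/
structure GPos.Valid (P : GPos N) : Prop where
  /-- no loops -/
  ndC : ∀ e ∈ P.C, ¬ e.IsDiag
  /-- no loops -/
  ndK : ∀ e ∈ P.K, ¬ e.IsDiag
  /-- the players have no common edge -/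
  CK : Disjoint P.C P.K
  /-- only claimed edges have partners -/
  src : ∀ d ∈ P.D, d.1 ∈ P.C
  /-- partners are not loops -/
  tgt : ∀ d ∈ P.D, ¬ d.2.IsDiag
  /-- at most one partner -/
  uniq : ∀ d ∈ P.D, ∀ d' ∈ P.D, d.1 = d'.1 → d = d'
  /-- few preimages -/
  ind : ∀ g, (2 : ℝ) ^ (P.D.filter (fun d => d.2 = g)).card ≤ 32 * (N : ℝ) ^ 4
  /-- no cycles -/
  acy : ∃ tm : Sym2 (Fin N) → ℕ, ∀ d ∈ P.D, tm d.1 < tm d.2

/-- a Maker-Breaker position as a general position -/
noncomputable def Pos.toG (P : Pos N) : GPos N := ⟨P.C, P.K, P.D⟩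

theorem Pos.Valid.toG {P : Pos N} (h : P.Valid) (hN : 1 ≤ N) : P.toG.Valid := by
  have hN' : (1 : ℝ) ≤ (N : ℝ) ^ 4 := one_le_pow₀ (by exact_mod_cast hN)
  refine ⟨?_, h.ndK, h.CK, ?_, h.nd2, ?_, ?_, ?_⟩
  · intro e he
    obtain ⟨d, hd, hed⟩ := Pos.mem_C.1 he
    rcases hed with h1 | h1
    · rw [h1]; exact h.nd1 d hd
    · rw [h1]; exact h.nd2 d hd
  · intro d hd
    exact Pos.mem_C.2 ⟨d, hd, Or.inl rfl⟩
  · intro d hd d' hd' h1
    by_contra hne
    exact (h.disj d hd d' hd' hne).1 h1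
  · intro g
    have h1 : (P.toG.D.filter (fun d => d.2 = g)).card ≤ 1 := by
      rw [Finset.card_le_one]
      intro d hd d' hd'
      rw [Finset.mem_filter] at hd hd'
      by_contra hne
      exact (h.disj d hd.1 d' hd'.1 hne).2.2.2 (hd.2.trans hd'.2.symm)
    have h2 : (2 : ℝ) ^ (P.toG.D.filter (fun d => d.2 = g)).card ≤ 2 ^ 1 :=
      pow_le_pow_right₀ (by norm_num) h1
    linarith
  · refine ⟨fun e => if e ∈ P.D.image Prod.snd then 1 else 0, fun d hd => ?_⟩
    have h1 : d.1 ∉ P.D.image Prod.snd := by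
      intro hm
      obtain ⟨d', hd', h2⟩ := Finset.mem_image.1 hm
      by_cases hne : d = d'
      · subst hne
        exact h.ne d hd h2.symm
      · exact (h.disj d hd d' hd' hne).2.1 h2.symm
    have h2 : d.2 ∈ P.D.image Prod.snd := Finset.mem_image_of_mem _ hd
    simp only [h1, h2, if_true, if_false]
    omega

/-- The criterion for Maker-Breaker, general positions. -/
theorem achievement_lt_G {ι : Type} [Fintype ι] {Z : ι → Finset (Sym2 (Fin N))} {a : ι → ℝ}
    {q h : ℕ} {B : ℝ} (ha : ∀ i, 0 ≤ a i)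
    (hmass : ∑ i, a i * (1 / 2) ^ (Z i).card ≤ 1 / 4) (hB0 : 0 ≤ B)
    (hBN : (N : ℝ) ^ 2 * (B * (8 * (4 / 3) ^ (h / 2) * (1 / 2) ^ h)) < 1 / 4)
    (hST : ∀ P : GPos N, P.Valid → ∑ i, a i * P.mass (Z i) < 1 → ((P.near q h).card : ℝ) ≤ B)
    (hN : 2 ≤ N) (hq : 1 ≤ q) (hh1 : 1 ≤ h) (hh : h < q.choose 2) :
    C0ce.achievement N < q :=
  achievement_lt ha hmass hB0 hBN (fun P hP hs => hST P.toG (hP.toG (by omega)) hs) hN hq hh1 hh

end C0up
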