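import Pool.Agent.W_c0lo_h38.State
import Pool.Agent.W_c0ce05_h38.Numbers

/-!
# MP_c0ce05_co, upper bound for `A(N)`: positions and masses

A position (after a turn of Maker) is given by the set `D` of the turns of Maker (ordered pairs of
edges) and the set `K` of the edges of Breaker.
-/

set_option autoImplicit false

namespace C0up

open scoped Classical
open C0lo

variable {N : ℕ}

/-- A position after a turn of Maker: `D` is the set of his turns (each a pair of edges), `K` is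
the set of the edges of Breaker. -/
structure Pos (N : ℕ) where
  /-- the turns of Maker -/
  D : Finset (Sym2 (Fin N) × Sym2 (Fin N))
  /-- the edges of Breaker -/
  K : Finset (Sym2 (Fin N))

/-- the edges of Maker -/
noncomputable def Pos.C (P : Pos N) : Finset (Sym2 (Fin N)) :=
  P.D.image Prod.fst ∪ P.D.image Prod.snd

/-- the number of turns of Maker with both edges in `Z` -/
noncomputable def Pos.dbl (P : Pos N) (Z : Finset (Sym2 (Fin N))) : ℕ :=
  (P.D.filter (fun d => d.1 ∈ Z ∧ d.2 ∈ Z)).card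

/-- the mass of the edge set `Z`: `0` if Breaker has an edge in `Z`, otherwise
`2 ^ (-(unclaimed edges)) * (3/4) ^ (turns of Maker inside)` -/
noncomputable def Pos.mass (P : Pos N) (Z : Finset (Sym2 (Fin N))) : ℝ :=
  if Disjoint Z P.K then (1 / 2) ^ (Z \ P.C).card * (3 / 4) ^ (P.dbl Z) else 0

/-- legal positions -/
structure Pos.Valid (P : Pos N) : Prop where
  /-- the edges are not loops -/
  nd1 : ∀ d ∈ P.D, ¬ d.1.IsDiag
  /-- the edges are not loops -/
  nd2 : ∀ d ∈ P.D, ¬ d.2.IsDiag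
  /-- the two edges of a turn are different -/
  ne : ∀ d ∈ P.D, d.1 ≠ d.2
  /-- different turns have no common edge -/
  disj : ∀ d ∈ P.D, ∀ d' ∈ P.D, d ≠ d' → d.1 ≠ d'.1 ∧ d.1 ≠ d'.2 ∧ d.2 ≠ d'.1 ∧ d.2 ≠ d'.2
  /-- Maker and Breaker have no common edge -/
  CK : Disjoint P.C P.K
  /-- the edges of Breaker are not loops -/
  ndK : ∀ e ∈ P.K, ¬ e.IsDiag

/-- the alive cliques with at most `h` unclaimed edges -/
noncomputable def Pos.near (P : Pos N) (q h : ℕ) : Finset (Finset (Fin N)) :=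
  Finset.univ.filter (fun A => A.card = q ∧ Disjoint (ed A) P.K ∧ (ed A \ P.C).card ≤ h)

theorem Pos.mem_C {P : Pos N} {e : Sym2 (Fin N)} :
    e ∈ P.C ↔ ∃ d ∈ P.D, e = d.1 ∨ e = d.2 := by
  unfold Pos.C
  rw [Finset.mem_union, Finset.mem_image, Finset.mem_image]
  constructor
  · rintro (⟨d, h1, h2⟩ | ⟨d, h1, h2⟩)
    · exact ⟨d, h1, Or.inl h2.symm⟩
    · exact ⟨d, h1, Or.inr h2.symm⟩
  · rintro ⟨d, h1, h2 | h2⟩
    · exact Or.inl ⟨d, h1, h2.symm⟩
    · exact Or.inr ⟨d, h1, h2.symm⟩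

/-- the position of the play `π` after the turns `0, …, r` of Maker -/
noncomputable def ofPlay (π : ℕ → Sym2 (Fin N)) (r : ℕ) : Pos N :=
  ⟨(Finset.range (r + 1)).image (fun s => (π (4 * s), π (4 * s + 1))), Ks π (4 * r + 2)⟩

theorem ofPlay_C (π : ℕ → Sym2 (Fin N)) (r : ℕ) : (ofPlay π r).C = Cs π (4 * r + 2) := by
  ext e
  rw [Pos.mem_C, mem_Cs]
  constructor
  · rintro ⟨d, hd, he⟩
    obtain ⟨s, hs, rfl⟩ := Finset.mem_image.1 hd
    rw [Finset.mem_range] at hs
    rcases he with he | he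
    · exact ⟨4 * s, by omega, by omega, he.symm⟩
    · exact ⟨4 * s + 1, by omega, by omega, he.symm⟩
  · rintro ⟨i, hi, hi2, he⟩
    refine ⟨(π (4 * (i / 4)), π (4 * (i / 4) + 1)),
      Finset.mem_image.2 ⟨i / 4, Finset.mem_range.2 (by omega), rfl⟩, ?_⟩
    rcases (show i = 4 * (i / 4) ∨ i = 4 * (i / 4) + 1 by omega) with h | h
    · left
      rw [← he]
      exact congrArg π h
    · right
      rw [← he]
      exact congrArg π h

theorem ofPlay_valid {π : ℕ → Sym2 (Fin N)} (h1 : ∀ i < N.choose 2, ¬ Sym2.IsDiag (π i))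
    (h2 : ∀ i < N.choose 2, ∀ j < N.choose 2, π i = π j → i = j) {r : ℕ}
    (hr : 4 * r + 2 ≤ N.choose 2) : (ofPlay π r).Valid := by
  have hD : ∀ d ∈ (ofPlay π r).D, ∃ s ≤ r, d = (π (4 * s), π (4 * s + 1)) := by
    intro d hd
    obtain ⟨s, hs, rfl⟩ := Finset.mem_image.1 hd
    rw [Finset.mem_range] at hs
    exact ⟨s, by omega, rfl⟩
  refine ⟨?_, ?_, ?_, ?_, ?_, ?_⟩
  · intro d hd
    obtain ⟨s, hs, rfl⟩ := hD d hd
    exact h1 _ (by omega)
  · intro d hd
    obtain ⟨s, hs, rfl⟩ := hD d hd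
    exact h1 _ (by omega)
  · intro d hd
    obtain ⟨s, hs, rfl⟩ := hD d hd
    intro h
    have := h2 _ (by omega) _ (by omega) h
    omega
  · intro d hd d' hd' hdd
    obtain ⟨s, hs, rfl⟩ := hD d hd
    obtain ⟨s', hs', rfl⟩ := hD d' hd'
    have hss : s ≠ s' := fun h => hdd (by rw [h])
    refine ⟨?_, ?_, ?_, ?_⟩ <;>
    · intro h
      have := h2 _ (by omega) _ (by omega) h
      omega
  · rw [ofPlay_C, Finset.disjoint_left]
    intro e he hk
    obtain ⟨i, hi, hi2, hie⟩ := mem_Cs.1 he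
    obtain ⟨j, hj, hj2, hje⟩ := mem_Ks.1 hk
    have := h2 i (by omega) j (by omega) (hie.trans hje.symm)
    omega
  · intro e he
    obtain ⟨j, hj, hj2, hje⟩ := mem_Ks.1 he
    rw [← hje]
    exact h1 j (by omega)

theorem ofPlay_dbl {π : ℕ → Sym2 (Fin N)}
    (h2 : ∀ i < N.choose 2, ∀ j < N.choose 2, π i = π j → i = j) {r : ℕ}
    (hr : 4 * r + 2 ≤ N.choose 2) (Z : Finset (Sym2 (Fin N))) :
    (ofPlay π r).dbl Z =
      ((Finset.range (r + 1)).filter (fun s => π (4 * s) ∈ Z ∧ π (4 * s + 1) ∈ Z)).card := by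
  unfold Pos.dbl ofPlay
  rw [Finset.filter_image, Finset.card_image_of_injOn]
  intro s hs s' hs' h
  have h3 := (Finset.mem_filter.1 (Finset.mem_coe.1 hs)).1
  have h4 := (Finset.mem_filter.1 (Finset.mem_coe.1 hs')).1
  rw [Finset.mem_range] at h3 h4
  have h5 : π (4 * s) = π (4 * s') := congrArg Prod.fst h
  have := h2 _ (by omega) _ (by omega) h5
  omega

end C0up
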