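import Pool.Agent.W_c0lo_h38.Defs

/-!
# The potential of Breaker: one round

`tot Z c C K` is the sum over the objects `i` of `c i` times the weight of the edge set `Z i` in the
position `(C, K)` (`0` if Breaker has an edge in it, otherwise `2 ^ (-(unclaimed edges))`).
-/

set_option autoImplicit false

namespace C0up

open scoped Classical
open C0lo

variable {N : ℕ} {κ : Type} [Fintype κ] {Z : κ → Finset (Sym2 (Fin N))} {c : κ → ℝ}
  {C K : Finset (Sym2 (Fin N))} {e e1 e2 f f1 f2 : Sym2 (Fin N)}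

/-- the total mass -/
noncomputable def tot (Z : κ → Finset (Sym2 (Fin N))) (c : κ → ℝ)
    (C K : Finset (Sym2 (Fin N))) : ℝ :=
  ∑ i, c i * w 2 C K (Z i)

/-- the mass of the objects which contain `e` -/
noncomputable def tote (Z : κ → Finset (Sym2 (Fin N))) (c : κ → ℝ)
    (C K : Finset (Sym2 (Fin N))) (e : Sym2 (Fin N)) : ℝ :=
  ∑ i, if e ∈ Z i then c i * w 2 C K (Z i) else 0

/-- the new coefficients after a turn of Maker -/
noncomputable def disc (Z : κ → Finset (Sym2 (Fin N))) (c : κ → ℝ) (e1 e2 : Sym2 (Fin N))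
    (i : κ) : ℝ :=
  if e1 ∈ Z i ∧ e2 ∈ Z i then c i * (3 / 4) else c i

omit [Fintype κ] in
theorem disc_nonneg (hc : ∀ i, 0 ≤ c i) (i : κ) : 0 ≤ disc Z c e1 e2 i := by
  unfold disc
  have := hc i
  split_ifs
  · positivity
  · exact this

theorem tot_nonneg (hc : ∀ i, 0 ≤ c i) : 0 ≤ tot Z c C K :=
  Finset.sum_nonneg fun i _ => mul_nonneg (hc i) (w_nonneg (by norm_num))

theorem tot_mono {c' : κ → ℝ} (h : ∀ i, c i ≤ c' i) : tot Z c C K ≤ tot Z c' C K :=
  Finset.sum_le_sum fun i _ => mul_le_mul_of_nonneg_right (h i) (w_nonneg (by norm_num))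

theorem tot_add {c' : κ → ℝ} : tot Z (fun i => c i + c' i) C K = tot Z c C K + tot Z c' C K := by
  unfold tot
  rw [← Finset.sum_add_distrib]
  exact Finset.sum_congr rfl fun i _ => by ring

theorem tot_disc_claim (h1 : e1 ∉ C) (h2 : e2 ∉ insert e1 C) :
    tot Z (disc Z c e1 e2) (insert e2 (insert e1 C)) K =
      tot Z c C K + tote Z c C K e1 + tote Z c C K e2 := by
  unfold tot tote
  rw [← Finset.sum_add_distrib, ← Finset.sum_add_distrib]
  refine Finset.sum_congr rfl fun i _ => ?_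
  rw [w_claim two_ne_zero h2, w_claim two_ne_zero h1]
  unfold disc
  by_cases a1 : e1 ∈ Z i <;> by_cases a2 : e2 ∈ Z i <;>
    simp only [a1, a2, if_true, if_false, and_true, and_false, and_self] <;> ring

theorem tot_kill : tot Z c C (insert f K) = tot Z c C K - tote Z c C K f := by
  unfold tot tote
  rw [← Finset.sum_sub_distrib]
  refine Finset.sum_congr rfl fun i _ => ?_
  rw [w_kill]
  split_ifs <;> ring

theorem tote_kill_le (hc : ∀ i, 0 ≤ c i) : tote Z c C (insert f K) e ≤ tote Z c C K e := by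
  unfold tote
  refine Finset.sum_le_sum fun i _ => ?_
  have h := mul_nonneg (hc i) (w_nonneg (a := 2) (C := C) (K := K) (X := Z i) (by norm_num))
  rw [w_kill]
  by_cases a1 : e ∈ Z i <;> by_cases a2 : f ∈ Z i <;>
    simp only [a1, a2, if_true, if_false, mul_zero] <;> first | exact h | exact le_rfl

theorem tote_le_tot (hc : ∀ i, 0 ≤ c i) : tote Z c C K e ≤ tot Z c C K := by
  unfold tot tote
  refine Finset.sum_le_sum fun i _ => ?_
  have h := mul_nonneg (hc i) (w_nonneg (a := 2) (C := C) (K := K) (X := Z i) (by norm_num))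
  split_ifs
  · exact le_rfl
  · exact h

/-- One round: Breaker takes the best edges `f1`, `f2`, then Maker takes `e1`, `e2`. -/
theorem tot_round (hc : ∀ i, 0 ≤ c i) (h1 : e1 ∉ C) (h2 : e2 ∉ insert e1 C)
    (hf1 : tote Z c C K e1 ≤ tote Z c C K f1)
    (hf2 : tote Z c C (insert f1 K) e2 ≤ tote Z c C (insert f1 K) f2) :
    tot Z (disc Z c e1 e2) (insert e2 (insert e1 C)) (insert f2 (insert f1 K)) ≤
      tot Z c C K := by
  rw [tot_disc_claim h1 h2, tot_kill, tot_kill]
  have h3 : tote Z c C (insert f2 (insert f1 K)) e1 ≤ tote Z c C K e1 :=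
    (tote_kill_le hc).trans (tote_kill_le hc)
  have h4 : tote Z c C (insert f2 (insert f1 K)) e2 ≤ tote Z c C (insert f1 K) e2 :=
    tote_kill_le hc
  linarith

/-- The first turn of Maker. -/
theorem tot_first (hc : ∀ i, 0 ≤ c i) (h1 : e1 ∉ C) (h2 : e2 ∉ insert e1 C) :
    tot Z (disc Z c e1 e2) (insert e2 (insert e1 C)) K ≤ 3 * tot Z c C K := by
  rw [tot_disc_claim h1 h2]
  have h3 := tote_le_tot (Z := Z) (C := C) (K := K) (e := e1) hc
  have h4 := tote_le_tot (Z := Z) (C := C) (K := K) (e := e2) hc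
  linarith

end C0up
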