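import Pool.Agent.W_c0up_h38.Pos
import Pool.Agent.W_c0up_h38.Tot

/-!
# The strategy of Breaker

Objects: finitely many edge sets `Z i` with coefficients `a i`, present from the start (structures),
and all `q`-sets `A`, which enter with the coefficient `b` when they first have at most `h` unclaimed
edges. `Breaker_wins`: if small total structure mass implies that at most `B` alive `q`-sets have at
most `h` unclaimed edges, and the numbers fit, then Breaker wins: `A(N) < q`.
-/

set_option autoImplicit false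

namespace C0up

open scoped Classical
open C0lo

variable {N : ℕ} {ι : Type} [Fintype ι]

/-- the edge sets of all objects -/
noncomputable def ZZ (Z : ι → Finset (Sym2 (Fin N))) : ι ⊕ Finset (Fin N) → Finset (Sym2 (Fin N)) :=
  Sum.elim Z ed

/-- the number of unclaimed edges of `A` after `r` turns of Maker -/
noncomputable def U (π : ℕ → Sym2 (Fin N)) (r : ℕ) (A : Finset (Fin N)) : ℕ :=
  (ed A \ Cs π (4 * r - 2)).card

/-- the entering coefficients after the turn `r` of Maker (the first turn has number `0`) -/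
noncomputable def ent (ι : Type) (q h : ℕ) (b : ℝ) (π : ℕ → Sym2 (Fin N)) (r : ℕ) :
    ι ⊕ Finset (Fin N) → ℝ :=
  Sum.elim (fun _ => 0) (fun A => if A.card = q ∧ U π (r + 1) A ≤ h ∧ h < U π r A then b else 0)

/-- the coefficients after `r` turns of Maker -/
noncomputable def co (Z : ι → Finset (Sym2 (Fin N))) (a : ι → ℝ) (q h : ℕ) (b : ℝ)
    (π : ℕ → Sym2 (Fin N)) : ℕ → (ι ⊕ Finset (Fin N) → ℝ)
  | 0 => Sum.elim a (fun _ => 0)
  | r + 1 => fun j => disc (ZZ Z) (co Z a q h b π r) (π (4 * r)) (π (4 * r + 1)) j +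
      ent ι q h b π r j

variable {Z : ι → Finset (Sym2 (Fin N))} {a : ι → ℝ} {q h : ℕ} {b : ℝ} {π : ℕ → Sym2 (Fin N)}

omit [Fintype ι] in
theorem ent_nonneg (hb : 0 ≤ b) (r : ℕ) (j : ι ⊕ Finset (Fin N)) : 0 ≤ ent ι q h b π r j := by
  unfold ent
  rcases j with i | A
  · exact le_rfl
  · show 0 ≤ if A.card = q ∧ U π (r + 1) A ≤ h ∧ h < U π r A then b else 0
    split_ifs
    · exact hb
    · exact le_rfl

omit [Fintype ι] in
theorem co_nonneg (ha : ∀ i, 0 ≤ a i) (hb : 0 ≤ b) (r : ℕ) (j : ι ⊕ Finset (Fin N)) :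
    0 ≤ co Z a q h b π r j := by
  induction r generalizing j with
  | zero =>
    rcases j with i | A
    · exact ha i
    · exact le_rfl
  | succ r ih => exact add_nonneg (disc_nonneg ih j) (ent_nonneg hb r j)

theorem U_congr {π' : ℕ → Sym2 (Fin N)} {r : ℕ} (hp : ∀ i < 4 * r - 2, π i = π' i)
    (A : Finset (Fin N)) : U π r A = U π' r A := by
  unfold U
  rw [Cs_congr hp]

omit [Fintype ι] in
theorem co_congr {π' : ℕ → Sym2 (Fin N)} {r : ℕ} (hp : ∀ i < 4 * r - 2, π i = π' i) :
    co Z a q h b π r = co Z a q h b π' r := by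
  induction r with
  | zero => rfl
  | succ r ih =>
    funext j
    have h1 : co Z a q h b π r = co Z a q h b π' r := ih fun i hi => hp i (by omega)
    have h2 : ent ι q h b π r j = ent ι q h b π' r j := by
      unfold ent
      rcases j with i | A
      · rfl
      · show (if A.card = q ∧ U π (r + 1) A ≤ h ∧ h < U π r A then b else 0) =
          (if A.card = q ∧ U π' (r + 1) A ≤ h ∧ h < U π' r A then b else 0)
        rw [U_congr hp A, U_congr (fun i hi => hp i (by omega)) A]
    show disc (ZZ Z) (co Z a q h b π r) (π (4 * r)) (π (4 * r + 1)) j + ent ι q h b π r j =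
      disc (ZZ Z) (co Z a q h b π' r) (π' (4 * r)) (π' (4 * r + 1)) j + ent ι q h b π' r j
    rw [h1, h2, hp (4 * r) (by omega), hp (4 * r + 1) (by omega)]

/-- the function maximised by Breaker -/
noncomputable def valB [NeZero N] (Z : ι → Finset (Sym2 (Fin N))) (a : ι → ℝ) (q h : ℕ) (b : ℝ)
    (l : List (Sym2 (Fin N))) (e : Sym2 (Fin N)) : ℝ :=
  tote (ZZ Z) (co Z a q h b (sq l) (l.length / 4 + 1)) (Cs (sq l) l.length)
    (Ks (sq l) l.length) e

theorem valB_eq [NeZero N] (π : ℕ → Sym2 (Fin N)) {n r : ℕ} (hn : n / 4 = r) (hn2 : 2 ≤ n % 4)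
    (e : Sym2 (Fin N)) :
    valB Z a q h b ((List.range n).map π) e =
      tote (ZZ Z) (co Z a q h b π (r + 1)) (Cs π n) (Ks π n) e := by
  have hl : ((List.range n).map π).length = n := by rw [List.length_map, List.length_range]
  unfold valB
  rw [hl, hn, Cs_congr (sq_map π n), Ks_congr (sq_map π n),
    co_congr (r := r + 1) (π' := π) (fun i hi => sq_map π n i (by omega))]

/-- the potential after the turn `r` of Maker -/
noncomputable def Phi (Z : ι → Finset (Sym2 (Fin N))) (a : ι → ℝ) (q h : ℕ) (b : ℝ)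
    (π : ℕ → Sym2 (Fin N)) (r : ℕ) : ℝ :=
  tot (ZZ Z) (co Z a q h b π (r + 1)) (Cs π (4 * r + 2)) (Ks π (4 * r + 2))

/-- the potential after the turn `r` of Maker, without the entering objects -/
noncomputable def Psi (Z : ι → Finset (Sym2 (Fin N))) (a : ι → ℝ) (q h : ℕ) (b : ℝ)
    (π : ℕ → Sym2 (Fin N)) (r : ℕ) : ℝ :=
  tot (ZZ Z) (disc (ZZ Z) (co Z a q h b π r) (π (4 * r)) (π (4 * r + 1))) (Cs π (4 * r + 2))
    (Ks π (4 * r + 2))

/-- the entering mass -/
noncomputable def Ent (Z : ι → Finset (Sym2 (Fin N))) (q h : ℕ) (b : ℝ)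
    (π : ℕ → Sym2 (Fin N)) (r : ℕ) : ℝ :=
  tot (ZZ Z) (ent ι q h b π r) (Cs π (4 * r + 2)) (Ks π (4 * r + 2))

theorem Phi_eq (r : ℕ) : Phi Z a q h b π r = Psi Z a q h b π r + Ent Z q h b π r := by
  unfold Phi Psi Ent
  rw [← tot_add]
  rfl

omit [Fintype ι] in
theorem co_inl (r : ℕ) (i : ι) :
    disc (ZZ Z) (co Z a q h b π r) (π (4 * r)) (π (4 * r + 1)) (Sum.inl i) =
      a i * (3 / 4) ^ ((Finset.range (r + 1)).filter
        (fun s => π (4 * s) ∈ Z i ∧ π (4 * s + 1) ∈ Z i)).card := by
  have hr : ∀ r, co Z a q h b π r (Sum.inl i) = a i * (3 / 4) ^ ((Finset.range r).filter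
        (fun s => π (4 * s) ∈ Z i ∧ π (4 * s + 1) ∈ Z i)).card →
      disc (ZZ Z) (co Z a q h b π r) (π (4 * r)) (π (4 * r + 1)) (Sum.inl i) =
      a i * (3 / 4) ^ ((Finset.range (r + 1)).filter
        (fun s => π (4 * s) ∈ Z i ∧ π (4 * s + 1) ∈ Z i)).card := by
    intro r h1
    unfold disc
    rw [h1, Finset.range_add_one, Finset.filter_insert]
    show (if π (4 * r) ∈ Z i ∧ π (4 * r + 1) ∈ Z i then _ else _) = _
    split_ifs with h2
    · rw [Finset.card_insert_of_notMem, pow_succ, mul_assoc]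
      intro h3
      exact absurd (Finset.mem_range.1 (Finset.mem_filter.1 h3).1) (lt_irrefl _)
    · rfl
  refine hr r ?_
  induction r with
  | zero =>
    rw [Finset.range_zero, Finset.filter_empty, Finset.card_empty, pow_zero, mul_one]
    rfl
  | succ r ih =>
    rw [← hr r ih]
    show _ + (0 : ℝ) = _
    rw [add_zero]

section play

variable (h1 : ∀ i < N.choose 2, ¬ Sym2.IsDiag (π i))
  (h2 : ∀ i < N.choose 2, ∀ j < N.choose 2, π i = π j → i = j)

include h2

/-- the structure mass is at most the potential -/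
theorem struct_le (ha : ∀ i, 0 ≤ a i) (hb : 0 ≤ b) {r : ℕ} (hr : 4 * r + 2 ≤ N.choose 2) :
    ∑ i, a i * (ofPlay π r).mass (Z i) ≤ Psi Z a q h b π r := by
  unfold Psi tot
  rw [Fintype.sum_sum_type]
  have h3 : ∀ i, disc (ZZ Z) (co Z a q h b π r) (π (4 * r)) (π (4 * r + 1)) (Sum.inl i) *
      w 2 (Cs π (4 * r + 2)) (Ks π (4 * r + 2)) (ZZ Z (Sum.inl i)) =
      a i * (ofPlay π r).mass (Z i) := by
    intro i
    rw [co_inl, mul_assoc]
    congr 1
    unfold Pos.mass w
    rw [ofPlay_C, ofPlay_dbl h2 hr]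
    show _ * (if Disjoint (Z i) (Ks π (4 * r + 2)) then _ else _) =
      if Disjoint (Z i) (Ks π (4 * r + 2)) then _ else _
    split_ifs
    · rw [show ZZ Z (Sum.inl i) = Z i from rfl, one_div, mul_comm]
    · rw [mul_zero]
  rw [Finset.sum_congr rfl fun i _ => h3 i]
  have h4 : 0 ≤ ∑ A : Finset (Fin N),
      disc (ZZ Z) (co Z a q h b π r) (π (4 * r)) (π (4 * r + 1)) (Sum.inr A) *
      w 2 (Cs π (4 * r + 2)) (Ks π (4 * r + 2)) (ZZ Z (Sum.inr A)) :=
    Finset.sum_nonneg fun A _ => mul_nonneg (disc_nonneg (co_nonneg ha hb r) _)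
      (w_nonneg (by norm_num))
  linarith

omit h2 in
theorem U_step (r : ℕ) (A : Finset (Fin N)) : U π r A ≤ U π (r + 1) A + 2 := by
  unfold U
  have h3 : ed A \ Cs π (4 * r - 2) ⊆
      (ed A \ Cs π (4 * (r + 1) - 2)) ∪ {π (4 * r), π (4 * r + 1)} := by
    intro e he
    rw [Finset.mem_sdiff] at he
    rw [Finset.mem_union, Finset.mem_sdiff, Finset.mem_insert, Finset.mem_singleton]
    by_cases h4 : e ∈ Cs π (4 * (r + 1) - 2)
    · right
      obtain ⟨i, hi, hi2, hie⟩ := mem_Cs.1 h4
      by_cases h5 : i < 4 * r - 2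
      · exact absurd (mem_Cs.2 ⟨i, h5, hi2, hie⟩) he.2
      · rcases (show i = 4 * r ∨ i = 4 * r + 1 by omega) with h6 | h6
        · left
          rw [← hie, h6]
        · right
          rw [← hie, h6]
    · exact Or.inl ⟨he.1, h4⟩
  refine (Finset.card_le_card h3).trans ((Finset.card_union_le _ _).trans ?_)
  have := Finset.card_le_two (a := π (4 * r)) (b := π (4 * r + 1))
  omega

omit h2 in
/-- the entering mass is small -/
theorem Ent_le (hb : 0 ≤ b) {B : ℝ} {r : ℕ}
    (hB : (((ofPlay π r).near q h).card : ℝ) ≤ B) :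
    Ent Z q h b π r ≤ B * (2 * b * (1 / 2) ^ h) := by
  unfold Ent tot
  rw [Fintype.sum_sum_type]
  have h3 : ∑ i : ι, ent ι q h b π r (Sum.inl i) *
      w 2 (Cs π (4 * r + 2)) (Ks π (4 * r + 2)) (ZZ Z (Sum.inl i)) = 0 :=
    Finset.sum_eq_zero fun i _ => by
      show (0 : ℝ) * _ = 0
      rw [zero_mul]
  rw [h3, zero_add]
  have h4 : ∀ A : Finset (Fin N), ent ι q h b π r (Sum.inr A) *
      w 2 (Cs π (4 * r + 2)) (Ks π (4 * r + 2)) (ZZ Z (Sum.inr A)) ≤
      if A ∈ (ofPlay π r).near q h then 2 * b * (1 / 2) ^ h else 0 := by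
    intro A
    show (if A.card = q ∧ U π (r + 1) A ≤ h ∧ h < U π r A then b else 0) *
      w 2 (Cs π (4 * r + 2)) (Ks π (4 * r + 2)) (ed A) ≤ _
    have hpos : (0 : ℝ) ≤ if A ∈ (ofPlay π r).near q h then 2 * b * (1 / 2) ^ h else 0 := by
      split_ifs
      · positivity
      · exact le_rfl
    by_cases h5 : A.card = q ∧ U π (r + 1) A ≤ h ∧ h < U π r A
    · rw [if_pos h5]
      unfold w
      by_cases h6 : Disjoint (ed A) (Ks π (4 * r + 2))
      · have hU : U π (r + 1) A = (ed A \ Cs π (4 * r + 2)).card := by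
          unfold U
          rw [show 4 * (r + 1) - 2 = 4 * r + 2 by omega]
        have h7 : A ∈ (ofPlay π r).near q h := by
          unfold Pos.near
          rw [Finset.mem_filter, ofPlay_C]
          exact ⟨Finset.mem_univ _, h5.1, h6, by rw [← hU]; exact h5.2.1⟩
        rw [if_pos h6, if_pos h7, ← hU]
        have h8 := U_step (π := π) r A
        have h9 : ((2 : ℝ)⁻¹) ^ (U π (r + 1) A) ≤ 2 * (1 / 2) ^ h := by
          have h10 : h ≤ U π (r + 1) A + 1 := by omega
          have h11 : ((1 : ℝ) / 2) ^ (U π (r + 1) A + 1) ≤ (1 / 2) ^ h :=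
            pow_le_pow_of_le_one (by norm_num) (by norm_num) h10
          rw [pow_succ] at h11
          rw [← one_div]
          linarith
        nlinarith
      · rw [if_neg h6, mul_zero]
        exact hpos
    · rw [if_neg h5, zero_mul]
      exact hpos
  refine (Finset.sum_le_sum fun A _ => h4 A).trans ?_
  rw [← Finset.sum_filter, Finset.sum_const, nsmul_eq_mul, Finset.filter_mem_eq_inter,
    Finset.univ_inter]
  exact mul_le_mul_of_nonneg_right hB (by positivity)

omit [Fintype ι] in
/-- the coefficient of a `q`-set which has entered -/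
theorem co_inr (ha : ∀ i, 0 ≤ a i) (hb : 0 ≤ b) {A : Finset (Fin N)} (hA : A.card = q) (hA0 : h < U π 0 A) {r : ℕ}
    (hr : 4 * r - 2 ≤ N.choose 2) (hU : U π r A ≤ h) :
    ∃ d : ℕ, 2 * d + U π r A ≤ h ∧ b * (3 / 4) ^ d ≤ co Z a q h b π r (Sum.inr A) := by
  induction r with
  | zero => exact absurd hU (not_le.2 hA0)
  | succ r ih =>
    have hc : co Z a q h b π (r + 1) (Sum.inr A) =
      disc (ZZ Z) (co Z a q h b π r) (π (4 * r)) (π (4 * r + 1)) (Sum.inr A) +
      (if A.card = q ∧ U π (r + 1) A ≤ h ∧ h < U π r A then b else 0) := rfl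
    by_cases h3 : U π r A ≤ h
    · obtain ⟨d, hd, hd2⟩ := ih (by omega) h3
      rw [if_neg (by omega), add_zero] at hc
      rw [hc]
      by_cases h4 : π (4 * r) ∈ ed A ∧ π (4 * r + 1) ∈ ed A
      · refine ⟨d + 1, ?_, ?_⟩
        · -- two edges fewer
          have h5 : U π (r + 1) A + 2 ≤ U π r A := by
            unfold U
            have h6 : (ed A \ Cs π (4 * (r + 1) - 2)) ∪ {π (4 * r), π (4 * r + 1)} ⊆
                ed A \ Cs π (4 * r - 2) := by
              intro e he
              rw [Finset.mem_union, Finset.mem_sdiff, Finset.mem_insert,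
                Finset.mem_singleton] at he
              rw [Finset.mem_sdiff]
              rcases he with ⟨h7, h8⟩ | h7 | h7
              · refine ⟨h7, fun h9 => h8 ?_⟩
                obtain ⟨i, hi, hi2, hie⟩ := mem_Cs.1 h9
                exact mem_Cs.2 ⟨i, by omega, hi2, hie⟩
              · refine ⟨h7 ▸ h4.1, fun h9 => ?_⟩
                obtain ⟨i, hi, hi2, hie⟩ := mem_Cs.1 h9
                have := h2 i (by omega) (4 * r) (by omega) (hie.trans h7)
                omega
              · refine ⟨h7 ▸ h4.2, fun h9 => ?_⟩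
                obtain ⟨i, hi, hi2, hie⟩ := mem_Cs.1 h9
                have := h2 i (by omega) (4 * r + 1) (by omega) (hie.trans h7)
                omega
            refine le_trans ?_ (Finset.card_le_card h6)
            rw [Finset.card_union_of_disjoint, Finset.card_pair]
            · intro h7
              have := h2 (4 * r) (by omega) (4 * r + 1) (by omega) h7
              omega
            · rw [Finset.disjoint_left]
              intro e he he2
              rw [Finset.mem_sdiff] at he
              rw [Finset.mem_insert, Finset.mem_singleton] at he2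
              apply he.2
              rcases he2 with h7 | h7
              · exact mem_Cs.2 ⟨4 * r, by omega, by omega, h7.symm⟩
              · exact mem_Cs.2 ⟨4 * r + 1, by omega, by omega, h7.symm⟩
          omega
        · unfold disc
          show _ ≤ if π (4 * r) ∈ ed A ∧ π (4 * r + 1) ∈ ed A then _ else _
          rw [if_pos h4, pow_succ, ← mul_assoc]
          exact mul_le_mul_of_nonneg_right hd2 (by norm_num)
      · refine ⟨d, ?_, ?_⟩
        · have h5 : U π (r + 1) A ≤ U π r A := by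
            unfold U
            refine Finset.card_le_card (Finset.sdiff_subset_sdiff le_rfl ?_)
            intro e he
            obtain ⟨i, hi, hi2, hie⟩ := mem_Cs.1 he
            exact mem_Cs.2 ⟨i, by omega, hi2, hie⟩
          omega
        · unfold disc
          show _ ≤ if π (4 * r) ∈ ed A ∧ π (4 * r + 1) ∈ ed A then _ else _
          rw [if_neg h4]
          exact hd2
    · refine ⟨0, by omega, ?_⟩
      rw [hc, if_pos ⟨hA, hU, not_le.1 h3⟩, pow_zero, mul_one]
      have h5 : 0 ≤ disc (ZZ Z) (co Z a q h b π r) (π (4 * r)) (π (4 * r + 1)) (Sum.inr A) :=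
        disc_nonneg (co_nonneg ha hb r) _
      linarith

end play

end C0up
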