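import Pool.Agent.W_c0up_h38.VPot

/-!
# Avoider's choice and the invariants
-/

set_option autoImplicit false
set_option linter.unusedSectionVars false

namespace C0up

open scoped Classical
open C0lo

variable {N : ℕ} {κ : Type} [Fintype κ] {Z : κ → Finset (Sym2 (Fin N))} {s : St N κ} {τ : ℝ}
  {f : Sym2 (Fin N)}

theorem exists_best (Z : κ → Finset (Sym2 (Fin N))) (s : St N κ) (h : 2 ≤ s.free.card) :
    ∃ p : Sym2 (Fin N) × Sym2 (Fin N), p.1 ∈ s.free ∧ p.2 ∈ s.free ∧ p.1 ≠ p.2 ∧
      W Z s p.1 ≤ W Z s p.2 ∧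
      ∀ f ∈ s.free, ∀ f' ∈ s.free, f ≠ f' → Wu Z s p.1 p.2 ≤ Wu Z s f f' := by
  have hne : s.free.offDiag.Nonempty := by
    rw [← Finset.card_pos, Finset.offDiag_card]
    have : s.free.card * 2 ≤ s.free.card * s.free.card := Nat.mul_le_mul_left _ h
    omega
  obtain ⟨p, hp, hmin⟩ := Finset.exists_min_image s.free.offDiag
    (fun p => Wu Z s p.1 p.2) hne
  rw [Finset.mem_offDiag] at hp
  have hmin' : ∀ f ∈ s.free, ∀ f' ∈ s.free, f ≠ f' → Wu Z s p.1 p.2 ≤ Wu Z s f f' :=
    fun f hf f' hf' hff => hmin (f, f') (Finset.mem_offDiag.2 ⟨hf, hf', hff⟩)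
  by_cases hle : W Z s p.1 ≤ W Z s p.2
  · exact ⟨p, hp.1, hp.2.1, hp.2.2, hle, hmin'⟩
  · refine ⟨(p.2, p.1), hp.2.1, hp.1, hp.2.2.symm, (not_le.1 hle).le, ?_⟩
    intro f hf f' hf' hff
    show Wu Z s p.2 p.1 ≤ _
    rw [Wu_comm]
    exact hmin' f hf f' hf' hff

/-- the pair chosen by Avoider -/
noncomputable def best [NeZero N] (Z : κ → Finset (Sym2 (Fin N))) (s : St N κ) :
    Sym2 (Fin N) × Sym2 (Fin N) :=
  if h : 2 ≤ s.free.card then (exists_best Z s h).choose else (s(0, 0), s(0, 0))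

theorem best_spec [NeZero N] (h : 2 ≤ s.free.card) :
    (best Z s).1 ∈ s.free ∧ (best Z s).2 ∈ s.free ∧ (best Z s).1 ≠ (best Z s).2 ∧
      W Z s (best Z s).1 ≤ W Z s (best Z s).2 ∧
      ∀ f ∈ s.free, ∀ f' ∈ s.free, f ≠ f' →
        Wu Z s (best Z s).1 (best Z s).2 ≤ Wu Z s f f' := by
  unfold best
  rw [dif_pos h]
  exact (exists_best Z s h).choose_spec

/-- half of the difference -/
noncomputable def dl [NeZero N] (Z : κ → Finset (Sym2 (Fin N))) (s : St N κ) : ℝ :=
  (W Z s (best Z s).2 - W Z s (best Z s).1) / 2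

/-- the edge claimed by Avoider -/
noncomputable def mv [NeZero N] (Z : κ → Finset (Sym2 (Fin N))) (τ : ℝ) (s : St N κ) :
    Sym2 (Fin N) :=
  if s.bank (best Z s).2 + τ < dl Z s then (best Z s).1
  else if s.tr (best Z s).1 ≤ s.tr (best Z s).2 then (best Z s).2 else (best Z s).1

/-- the state after Avoider's claim -/
noncomputable def act [NeZero N] (Z : κ → Finset (Sym2 (Fin N))) (τ : ℝ) (s : St N κ) :
    St N κ :=
  if s.bank (best Z s).2 + τ < dl Z s then s.claim Z (best Z s).1 (best Z s).2 true (dl Z s)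
  else if s.tr (best Z s).1 ≤ s.tr (best Z s).2 then
    s.claim Z (best Z s).2 (best Z s).1 false 0
  else s.claim Z (best Z s).1 (best Z s).2 false 0

/-- the invariants -/
structure Inv (τ : ℝ) (s : St N κ) : Prop where
  /-- coefficients -/
  nn : Nn s
  /-- banks -/
  bank0 : ∀ g, 0 ≤ s.bank g
  /-- lower bound for the bank of a free edge -/
  bankl : ∀ g ∈ s.free, ((2 : ℝ) ^ (s.ti g) - 1) * τ ≤ s.bank g
  /-- bound for the preimages of type I -/
  tib : ∀ g, ((2 : ℝ) ^ (s.ti g) - 1) * τ ≤ 3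
  /-- sum of the ranks -/
  trs : ∑ g ∈ s.free, 2 ^ (s.tr g) ≤ N.choose 2
  /-- bound for the ranks -/
  trb : ∀ g, 2 ^ (s.tr g) ≤ N.choose 2 + 1
  /-- number of preimages -/
  ind : ∀ g, (s.C.filter (fun e => s.p e = some g)).card = s.ti g + s.tr g
  /-- partners -/
  pC : ∀ e f, s.p e = some f → e ∈ s.C ∧ ¬ f.IsDiag
  /-- acyclic -/
  acy : ∃ tm : Sym2 (Fin N) → ℕ, (∀ e f, s.p e = some f → tm e < tm f) ∧
    (∀ e ∈ s.C, tm e < s.C.card) ∧ ∀ e, e ∉ s.C → tm e = s.C.card
  /-- no loops -/
  ndC : ∀ e ∈ s.C, ¬ e.IsDiag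
  /-- no loops -/
  ndK : ∀ e ∈ s.K, ¬ e.IsDiag
  /-- disjoint -/
  CK : Disjoint s.C s.K

/-- the parts of the invariants which do not depend on the type of the claim -/
theorem Inv.claim_acy (h : Inv τ s) {g g' : Sym2 (Fin N)} (hg : g ∈ s.free) (hg' : g' ∈ s.free)
    (hne : g ≠ g') (b : Bool) (d : ℝ) :
    ∃ tm : Sym2 (Fin N) → ℕ, (∀ e f, (s.claim Z g g' b d).p e = some f → tm e < tm f) ∧
    (∀ e ∈ (s.claim Z g g' b d).C, tm e < (s.claim Z g g' b d).C.card) ∧
      ∀ e, e ∉ (s.claim Z g g' b d).C → tm e = (s.claim Z g g' b d).C.card := by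
  obtain ⟨tm, h1, h2, h3⟩ := h.acy
  rw [St.mem_free] at hg hg'
  have hcard : (s.claim Z g g' b d).C.card = s.C.card + 1 :=
    Finset.card_insert_of_notMem hg.2.1
  refine ⟨fun e => if e ∈ s.C then tm e else if e = g then s.C.card else s.C.card + 1,
    ?_, ?_, ?_⟩
  · intro e f hef
    have hef' : Function.update s.p g (some g') e = some f := hef
    by_cases he : e = g
    · subst he
      rw [Function.update_self] at hef'
      have hf : g' = f := Option.some.inj hef'
      subst hf
      simp only [hg.2.1, hg'.2.1, if_false, if_true, hne.symm]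
      omega
    · rw [Function.update_of_ne he] at hef'
      have heC := (h.pC e f hef').1
      have h4 := h1 e f hef'
      have h5 := h2 e heC
      simp only [heC, if_true]
      by_cases hf : f ∈ s.C
      · simp only [hf, if_true]
        exact h4
      · simp only [hf, if_false]
        split_ifs <;> omega
  · intro e he
    rw [hcard]
    have he' : e ∈ insert g s.C := he
    rcases Finset.mem_insert.1 he' with h4 | h4
    · subst h4
      simp only [hg.2.1, if_false, if_true]
      omega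
    · have := h2 e h4
      simp only [h4, if_true]
      omega
  · intro e he
    rw [hcard]
    have he' : e ∉ insert g s.C := he
    rw [Finset.mem_insert, not_or] at he'
    simp only [he'.1, he'.2, if_false]

theorem Inv.claim_ind (h : Inv τ s) {g g' : Sym2 (Fin N)} (hg : g ∈ s.free) (b : Bool)
    (d : ℝ) (x : Sym2 (Fin N)) :
    ((s.claim Z g g' b d).C.filter (fun e => (s.claim Z g g' b d).p e = some x)).card =
      (s.claim Z g g' b d).ti x + (s.claim Z g g' b d).tr x := by
  rw [St.mem_free] at hg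
  show ((insert g s.C).filter (fun e => Function.update s.p g (some g') e = some x)).card = _
  rw [Finset.filter_insert, Function.update_self]
  have h1 : s.C.filter (fun e => Function.update s.p g (some g') e = some x) =
      s.C.filter (fun e => s.p e = some x) := by
    refine Finset.filter_congr fun e he => ?_
    rw [Function.update_of_ne]
    intro h
    exact hg.2.1 (h ▸ he)
  rw [h1]
  have h2 := h.ind x
  by_cases hx : g' = x
  · subst hx
    rw [if_pos rfl, Finset.card_insert_of_notMem (fun h => hg.2.1 (Finset.mem_filter.1 h).1), h2]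
    cases b
    · show _ = s.ti g' + Function.update s.tr g' (s.tr g' + 1) g'
      rw [Function.update_self]
      omega
    · show _ = Function.update s.ti g' (s.ti g' + 1) g' + s.tr g'
      rw [Function.update_self]
      omega
  · rw [if_neg (fun h => hx (Option.some.inj h)), h2]
    cases b
    · show _ = s.ti x + Function.update s.tr g' (s.tr g' + 1) x
      rw [Function.update_of_ne (Ne.symm hx)]
    · show _ = Function.update s.ti g' (s.ti g' + 1) x + s.tr x
      rw [Function.update_of_ne (Ne.symm hx)]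

theorem Inv.claim_pC (h : Inv τ s) {g g' : Sym2 (Fin N)} (hg' : g' ∈ s.free) (b : Bool)
    (d : ℝ) : ∀ e f, (s.claim Z g g' b d).p e = some f →
      e ∈ (s.claim Z g g' b d).C ∧ ¬ f.IsDiag := by
  intro e f hef
  have hef' : Function.update s.p g (some g') e = some f := hef
  show e ∈ insert g s.C ∧ _
  by_cases he : e = g
  · subst he
    rw [Function.update_self] at hef'
    have hf : g' = f := Option.some.inj hef'
    exact ⟨Finset.mem_insert_self _ _, hf ▸ (St.mem_free.1 hg').1⟩
  · rw [Function.update_of_ne he] at hef'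
    have := h.pC e f hef'
    exact ⟨Finset.mem_insert_of_mem this.1, this.2⟩

theorem Xi_ge_bank (hn : Nn s) (hb : ∀ g, 0 ≤ s.bank g) {g : Sym2 (Fin N)} (hg : g ∈ s.free) :
    s.bank g ≤ Xi Z s := by
  unfold Xi
  have h1 : 0 ≤ Ph Z s := tot_nonneg hn
  have h2 := Finset.single_le_sum (f := s.bank) (fun g _ => hb g) hg
  linarith

theorem Wu_le_Ph (hn : Nn s) (e e' : Sym2 (Fin N)) : Wu Z s e e' ≤ Ph Z s := by
  rw [Wu_eq]
  unfold Ph tot
  refine Finset.sum_le_sum fun i _ => ?_
  have h := term_nonneg (Z := Z) hn i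
  split_ifs
  · exact le_rfl
  · exact h

theorem Ph_le_Xi (hb : ∀ g, 0 ≤ s.bank g) : Ph Z s ≤ Xi Z s := by
  unfold Xi
  have : 0 ≤ ∑ g ∈ s.free, s.bank g := Finset.sum_nonneg fun g _ => hb g
  linarith

/-- a claim of type I -/
theorem Inv.claim_I (h : Inv τ s) {g g' : Sym2 (Fin N)} (hg : g ∈ s.free)
    (hg' : g' ∈ s.free) (hne : g ≠ g') (hle : W Z s g ≤ W Z s g')
    (hd : s.bank g' + τ < (W Z s g' - W Z s g) / 2)
    (hXi : Xi Z s + Ph Z s / 2 ≤ 3) :
    Inv τ (s.claim Z g g' true ((W Z s g' - W Z s g) / 2)) := by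
  have hXi' := Xi_claim_I (Z := Z) hg hg' hne h.bank0
  have hWu := Wu_le_Ph (Z := Z) h.nn g g'
  have hn := Nn_claim (Z := Z) (g := g) (g' := g') h.nn true ((W Z s g' - W Z s g) / 2)
  have hb0 : ∀ x, 0 ≤ (s.claim Z g g' true ((W Z s g' - W Z s g) / 2)).bank x := by
    intro x
    show 0 ≤ Function.update s.bank g' (s.bank g' + (W Z s g' - W Z s g) / 2) x
    by_cases hx : x = g'
    · subst hx
      rw [Function.update_self]
      have := h.bank0 x
      linarith
    · rw [Function.update_of_ne hx]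
      exact h.bank0 x
  have hnew : ((2 : ℝ) ^ (s.ti g' + 1) - 1) * τ ≤ s.bank g' + (W Z s g' - W Z s g) / 2 := by
    have h1 := h.bankl g' hg'
    rw [pow_succ]
    linarith
  have hfree := free_claim (Z := Z) (s := s) (g := g) (g' := g') true
    ((W Z s g' - W Z s g) / 2)
  refine ⟨hn, hb0, ?_, ?_, ?_, h.trb, h.claim_ind hg true _, h.claim_pC hg' true _,
    h.claim_acy hg hg' hne true _, ?_, h.ndK, ?_⟩
  · intro x hx
    show ((2 : ℝ) ^ (Function.update s.ti g' (s.ti g' + 1) x) - 1) * τ ≤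
      Function.update s.bank g' (s.bank g' + (W Z s g' - W Z s g) / 2) x
    by_cases hx' : x = g'
    · subst hx'
      rw [Function.update_self, Function.update_self]
      exact hnew
    · rw [Function.update_of_ne hx', Function.update_of_ne hx']
      rw [hfree] at hx
      exact h.bankl x (Finset.mem_of_mem_erase hx)
  · intro x
    show ((2 : ℝ) ^ (Function.update s.ti g' (s.ti g' + 1) x) - 1) * τ ≤ 3
    by_cases hx' : x = g'
    · subst hx'
      rw [Function.update_self]
      have h2 : s.bank x + (W Z s x - W Z s g) / 2 ≤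
          Xi Z (s.claim Z g x true ((W Z s x - W Z s g) / 2)) := by
        have h3 := Xi_ge_bank (Z := Z) hn hb0 (g := x) (by
          rw [hfree]
          exact Finset.mem_erase.2 ⟨hne.symm, hg'⟩)
        have h4 : (s.claim Z g x true ((W Z s x - W Z s g) / 2)).bank x =
            s.bank x + (W Z s x - W Z s g) / 2 := Function.update_self _ _ _
        rwa [h4] at h3
      linarith
    · rw [Function.update_of_ne hx']
      exact h.tib x
  · rw [hfree]
    refine le_trans (Finset.sum_le_sum_of_subset_of_nonneg (Finset.erase_subset _ _)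
      fun _ _ _ => Nat.zero_le _) h.trs
  · intro e he
    have he' : e ∈ insert g s.C := he
    rcases Finset.mem_insert.1 he' with h4 | h4
    · rw [h4]
      exact (St.mem_free.1 hg).1
    · exact h.ndC e h4
  · show Disjoint (insert g s.C) s.K
    rw [Finset.disjoint_insert_left]
    exact ⟨(St.mem_free.1 hg).2.2, h.CK⟩

/-- a claim of type II -/
theorem Inv.claim_II (h : Inv τ s) {g g' : Sym2 (Fin N)} (hg : g ∈ s.free)
    (hg' : g' ∈ s.free) (hne : g ≠ g') (hr : s.tr g' ≤ s.tr g) :
    Inv τ (s.claim Z g g' false 0) := by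
  have hn := Nn_claim (Z := Z) (g := g) (g' := g') h.nn false 0
  have hfree := free_claim (Z := Z) (s := s) (g := g) (g' := g') false 0
  have hsum : ∑ x ∈ s.free.erase g, 2 ^ (Function.update s.tr g' (s.tr g' + 1) x) ≤
      N.choose 2 := by
    have hm : g' ∈ s.free.erase g := Finset.mem_erase.2 ⟨hne.symm, hg'⟩
    have h1 := h.trs
    rw [← Finset.add_sum_erase _ _ hg, ← Finset.add_sum_erase _ _ hm] at h1
    rw [← Finset.add_sum_erase _ _ hm, Function.update_self]
    have h2 : ∑ x ∈ (s.free.erase g).erase g', 2 ^ (Function.update s.tr g' (s.tr g' + 1) x) =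
        ∑ x ∈ (s.free.erase g).erase g', 2 ^ (s.tr x) :=
      Finset.sum_congr rfl fun x hx => by
        rw [Function.update_of_ne (Finset.mem_erase.1 hx).1]
    rw [h2, pow_succ]
    have h3 : 2 ^ s.tr g' ≤ 2 ^ s.tr g := Nat.pow_le_pow_right (by norm_num) hr
    omega
  refine ⟨hn, h.bank0, ?_, h.tib, ?_, ?_, h.claim_ind hg false _, h.claim_pC hg' false _,
    h.claim_acy hg hg' hne false _, ?_, h.ndK, ?_⟩
  · intro x hx
    rw [hfree] at hx
    exact h.bankl x (Finset.mem_of_mem_erase hx)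
  · rw [hfree]
    exact hsum
  · intro x
    show 2 ^ (Function.update s.tr g' (s.tr g' + 1) x) ≤ _
    by_cases hx' : x = g'
    · subst hx'
      have hm : x ∈ s.free.erase g := Finset.mem_erase.2 ⟨hne.symm, hg'⟩
      have h5 := Finset.single_le_sum
        (f := fun y => 2 ^ (Function.update s.tr x (s.tr x + 1) y))
        (fun _ _ => Nat.zero_le _) hm
      exact (h5.trans hsum).trans (Nat.le_succ _)
    · rw [Function.update_of_ne hx']
      exact h.trb x
  · intro e he
    have he' : e ∈ insert g s.C := he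
    rcases Finset.mem_insert.1 he' with h4 | h4
    · rw [h4]
      exact (St.mem_free.1 hg).1
    · exact h.ndC e h4
  · show Disjoint (insert g s.C) s.K
    rw [Finset.disjoint_insert_left]
    exact ⟨(St.mem_free.1 hg).2.2, h.CK⟩

/-- Avoider's claim: invariants, cost, new sets -/
theorem act_spec [NeZero N] (h : Inv τ s) (hτ : 0 ≤ τ) (hc : 2 ≤ s.free.card)
    (hXi : Xi Z s + Ph Z s / 2 ≤ 3) :
    Inv τ (act Z τ s) ∧ Nn (act Z τ s) ∧ mv Z τ s ∈ s.free ∧
      (act Z τ s).C = insert (mv Z τ s) s.C ∧ (act Z τ s).K = s.K ∧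
      (act Z τ s).free = s.free.erase (mv Z τ s) ∧
      (∀ e e', Wu Z s e e' ≤ Wu Z (act Z τ s) e e') ∧
      ∀ f ∈ s.free, ∀ f' ∈ s.free, f ≠ f' →
        Xi Z (act Z τ s) ≤ Xi Z s + Wu Z s f f' / 2 + τ := by
  obtain ⟨h1, h2, h3, h4, h5⟩ := best_spec (Z := Z) hc
  unfold act mv
  by_cases hI : s.bank (best Z s).2 + τ < dl Z s
  · simp only [if_pos hI]
    have hinv := h.claim_I h1 h2 h3 h4 hI hXi
    refine ⟨hinv, hinv.nn, h1, rfl, rfl, free_claim _ _,
      fun e e' => Wu_mono h.nn (St.mem_free.1 h1).2.1 _ _, fun f hf f' hf' hff => ?_⟩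
    have h6 := Xi_claim_I (Z := Z) h1 h2 h3 h.bank0
    have h7 := h5 f hf f' hf' hff
    unfold dl
    linarith
  · simp only [if_neg hI]
    by_cases hr : s.tr (best Z s).1 ≤ s.tr (best Z s).2
    · simp only [if_pos hr]
      have hinv := h.claim_II (Z := Z) h2 h1 h3.symm hr
      refine ⟨hinv, hinv.nn, h2, rfl, rfl, free_claim _ _,
        fun e e' => Wu_mono h.nn (St.mem_free.1 h2).2.1 _ _, fun f hf f' hf' hff => ?_⟩
      have h6 := Xi_claim_II' (Z := Z) (g := (best Z s).2) (g' := (best Z s).1) (τ := τ) h2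
        (by
          have h8 := not_lt.1 hI
          unfold dl at h8
          linarith) 0
      have h7 := h5 f hf f' hf' hff
      rw [Wu_comm] at h6
      linarith
    · simp only [if_neg hr]
      have hinv := h.claim_II (Z := Z) h1 h2 h3 (not_le.1 hr).le
      refine ⟨hinv, hinv.nn, h1, rfl, rfl, free_claim _ _,
        fun e e' => Wu_mono h.nn (St.mem_free.1 h1).2.1 _ _, fun f hf f' hf' hff => ?_⟩
      have h6 := Xi_claim_II (Z := Z) h1 h4 h.bank0 0
      have h7 := h5 f hf f' hf' hff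
      linarith

theorem Inv.kill (h : Inv τ s) (hf : f ∈ s.free) : Inv τ (s.kill f) := by
  have hfree := free_kill (s := s) (f := f)
  rw [St.mem_free] at hf
  refine ⟨h.nn, h.bank0, ?_, h.tib, ?_, h.trb, h.ind, h.pC, h.acy, h.ndC, ?_, ?_⟩
  · intro x hx
    rw [hfree] at hx
    exact h.bankl x (Finset.mem_of_mem_erase hx)
  · rw [hfree]
    exact le_trans (Finset.sum_le_sum_of_subset_of_nonneg (Finset.erase_subset _ _)
      fun _ _ _ => Nat.zero_le _) h.trs
  · intro e he
    have he' : e ∈ insert f s.K := he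
    rcases Finset.mem_insert.1 he' with h4 | h4
    · rw [h4]
      exact hf.1
    · exact h.ndK e h4
  · show Disjoint s.C (insert f s.K)
    rw [Finset.disjoint_insert_right]
    exact ⟨hf.2.1, h.CK⟩

/-- one round: two claims of Avoider, two edges of Forcer -/
noncomputable def round [NeZero N] (Z : κ → Finset (Sym2 (Fin N))) (τ : ℝ) (s : St N κ)
    (f f' : Sym2 (Fin N)) : St N κ :=
  ((act Z τ (act Z τ s)).kill f).kill f'

theorem round_spec [NeZero N] (h : Inv τ s) (hτ : 0 ≤ τ) (hτ1 : τ ≤ 1 / 8)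
    (hc : 4 ≤ s.free.card) (hXi : Xi Z s ≤ 1) {f f' : Sym2 (Fin N)} (hff : f ≠ f')
    (hf : f ∈ (act Z τ (act Z τ s)).free) (hf' : f' ∈ (act Z τ (act Z τ s)).free) :
    Inv τ (round Z τ s f f') ∧ Xi Z (round Z τ s f f') ≤ Xi Z s + 2 * τ := by
  have hPh := Ph_le_Xi (Z := Z) h.bank0
  obtain ⟨a1, a2, a3, a4, a5, a6, a7, a8⟩ := act_spec (Z := Z) h hτ (by omega) (by linarith)
  have hWuP : ∀ e e', Wu Z s e e' ≤ 1 := fun e e' =>
    (Wu_le_Ph h.nn e e').trans (hPh.trans hXi)
  have hc1 : (act Z τ s).free.card = s.free.card - 1 := by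
    rw [a6, Finset.card_erase_of_mem a3]
  have hX1 : Xi Z (act Z τ s) ≤ 1 + 1 / 2 + 1 / 8 := by
    obtain ⟨x, hx, y, hy, hxy⟩ := Finset.one_lt_card.1 (show 1 < s.free.card by omega)
    have := a8 x hx y hy hxy
    have := hWuP x y
    linarith
  have hPh1 := Ph_le_Xi (Z := Z) a1.bank0
  obtain ⟨b1, b2, b3, b4, b5, b6, b7, b8⟩ := act_spec (Z := Z) a1 hτ (by omega) (by linarith)
  have hf1 : f ∈ (act Z τ s).free := by
    rw [b6] at hf
    exact Finset.mem_of_mem_erase hf
  have hf'1 : f' ∈ (act Z τ s).free := by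
    rw [b6] at hf'
    exact Finset.mem_of_mem_erase hf'
  have hf0 : f ∈ s.free := by
    rw [a6] at hf1
    exact Finset.mem_of_mem_erase hf1
  have hf'0 : f' ∈ s.free := by
    rw [a6] at hf'1
    exact Finset.mem_of_mem_erase hf'1
  refine ⟨(b1.kill hf).kill ?_, ?_⟩
  · rw [free_kill]
    exact Finset.mem_erase.2 ⟨hff.symm, hf'⟩
  · have h1 := Xi_kill2 (Z := Z) (f := f) (f' := f') b1.bank0
    have h2 := a8 f hf0 f' hf'0 hff
    have h3 := b8 f hf1 f' hf'1 hff
    have h4 := b7 f f'
    have h5 := a7 f f'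
    unfold round
    linarith

end C0up
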