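import Pool.Agent.W_c0up_h38.VStrat

/-!
# Coefficients along a play of Avoider
-/

set_option autoImplicit false
set_option linter.unusedSectionVars false

namespace C0up

open scoped Classical
open C0lo

variable {N : ℕ} {ι : Type} [Fintype ι] {Z : ι → Finset (Sym2 (Fin N))} {a : ι → ℝ} {q h : ℕ}
  {b τ : ℝ} {s : St N (ι ⊕ Finset (Fin N))}

theorem act_eq {κ : Type} [Fintype κ] [NeZero N] {Z : κ → Finset (Sym2 (Fin N))} {s : St N κ}
    (h : 2 ≤ s.free.card) :
    ∃ g g' : Sym2 (Fin N), ∃ t : Bool, ∃ d : ℝ, act Z τ s = s.claim Z g g' t d ∧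
      g ∈ s.free ∧ g' ∈ s.free ∧ g ≠ g' := by
  obtain ⟨h1, h2, h3, _, _⟩ := best_spec (Z := Z) h
  unfold act
  by_cases hI : s.bank (best Z s).2 + τ < dl Z s
  · rw [if_pos hI]
    exact ⟨_, _, _, _, rfl, h1, h2, h3⟩
  · rw [if_neg hI]
    by_cases hr : s.tr (best Z s).1 ≤ s.tr (best Z s).2
    · rw [if_pos hr]
      exact ⟨_, _, _, _, rfl, h2, h1, h3.symm⟩
    · rw [if_neg hr]
      exact ⟨_, _, _, _, rfl, h1, h2, h3⟩

/-- the coefficients of the structures -/
def Cst (Z : ι → Finset (Sym2 (Fin N))) (a : ι → ℝ) (s : St N (ι ⊕ Finset (Fin N))) : Prop :=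
  ∀ i, s.c (Sum.inl i) = a i * (3 / 4) ^ (s.pos.dbl (Z i))

theorem Cst.claim (hc : Cst Z a s) (hs : Inv τ s) {g g' : Sym2 (Fin N)} (hg : g ∈ s.free)
    (t : Bool) (d : ℝ) : Cst Z a (s.claim (ZZ Z) g g' t d) := by
  intro i
  have hpn : ∀ f, s.p g ≠ some f := fun f hf =>
    (St.mem_free.1 hg).2.1 (hs.pC g f hf).1
  have hD : (s.claim (ZZ Z) g g' t d).pos.D = insert (g, g') s.pos.D := by
    ext x
    rw [St.mem_D, Finset.mem_insert, St.mem_D]
    show Function.update s.p g (some g') x.1 = some x.2 ↔ _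
    by_cases hx : x.1 = g
    · rw [hx, Function.update_self]
      constructor
      · intro h1
        exact Or.inl (Prod.ext hx (Option.some.inj h1).symm)
      · rintro (h1 | h1)
        · rw [h1]
        · exact absurd h1 (hpn _)
    · rw [Function.update_of_ne hx]
      constructor
      · intro h1
        exact Or.inr h1
      · rintro (h1 | h1)
        · exact absurd (congrArg Prod.fst h1) hx
        · exact h1
  have hnot : (g, g') ∉ s.pos.D := fun h1 => hpn _ (St.mem_D.1 h1)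
  show disc (ZZ Z) s.c g g' (Sum.inl i) = _
  unfold disc GPos.dbl
  rw [hD, hc i, Finset.filter_insert]
  show (if g ∈ Z i ∧ g' ∈ Z i then _ else _) = _
  by_cases hgg : g ∈ Z i ∧ g' ∈ Z i
  · rw [if_pos hgg, if_pos (show (g, g').1 ∈ Z i ∧ (g, g').2 ∈ Z i from hgg),
      Finset.card_insert_of_notMem (fun h1 => hnot (Finset.mem_filter.1 h1).1), pow_succ]
    unfold GPos.dbl
    ring
  · rw [if_neg hgg, if_neg (show ¬ ((g, g').1 ∈ Z i ∧ (g, g').2 ∈ Z i) from hgg)]
    rfl

theorem Cst.act [NeZero N] (hc : Cst Z a s) (hs : Inv τ s) (hf : 2 ≤ s.free.card) :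
    Cst Z a (act (ZZ Z) τ s) := by
  obtain ⟨g, g', t, d, h1, h2, h3, h4⟩ := act_eq (Z := ZZ Z) (τ := τ) hf
  rw [h1]
  exact hc.claim hs h2 t d

/-- the coefficients of the late objects; `C0` = edges of Avoider at the last entering time -/
def Lok (q h : ℕ) (b : ℝ) (C0 : Finset (Sym2 (Fin N))) (s : St N (ι ⊕ Finset (Fin N))) : Prop :=
  ∀ A : Finset (Fin N), A.card = q → (ed A \ C0).card ≤ h →
    ∃ d : ℕ, d + (ed A \ s.C).card ≤ h ∧ b * (3 / 4) ^ d ≤ s.c (Sum.inr A)

theorem Lok.claim {C0 : Finset (Sym2 (Fin N))} (hc : Lok q h b C0 s) {g g' : Sym2 (Fin N)}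
    (hg : g ∈ s.free) (t : Bool) (d : ℝ) : Lok q h b C0 (s.claim (ZZ Z) g g' t d) := by
  intro A hA hA0
  obtain ⟨d, hd, hd2⟩ := hc A hA hA0
  have hgC := (St.mem_free.1 hg).2.1
  have hsub : ed A \ insert g s.C ⊆ ed A \ s.C :=
    Finset.sdiff_subset_sdiff le_rfl (Finset.subset_insert _ _)
  by_cases hgg : g ∈ ed A ∧ g' ∈ ed A
  · refine ⟨d + 1, ?_, ?_⟩
    · show d + 1 + (ed A \ insert g s.C).card ≤ h
      have h1 : (ed A \ insert g s.C).card < (ed A \ s.C).card := by
        refine Finset.card_lt_card (Finset.ssubset_iff_subset_ne.2 ⟨hsub, ?_⟩)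
        intro h2
        have h3 : g ∈ ed A \ s.C := Finset.mem_sdiff.2 ⟨hgg.1, hgC⟩
        rw [← h2] at h3
        exact (Finset.mem_sdiff.1 h3).2 (Finset.mem_insert_self _ _)
      omega
    · show _ ≤ disc (ZZ Z) s.c g g' (Sum.inr A)
      unfold disc
      show _ ≤ if g ∈ ed A ∧ g' ∈ ed A then _ else _
      rw [if_pos hgg, pow_succ, ← mul_assoc]
      exact mul_le_mul_of_nonneg_right hd2 (by norm_num)
  · refine ⟨d, ?_, ?_⟩
    · show d + (ed A \ insert g s.C).card ≤ h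
      have := Finset.card_le_card hsub
      omega
    · show _ ≤ disc (ZZ Z) s.c g g' (Sum.inr A)
      unfold disc
      show _ ≤ if g ∈ ed A ∧ g' ∈ ed A then _ else _
      rw [if_neg hgg]
      exact hd2

theorem Lok.act [NeZero N] {C0 : Finset (Sym2 (Fin N))} (hc : Lok q h b C0 s)
    (hf : 2 ≤ s.free.card) : Lok q h b C0 (act (ZZ Z) τ s) := by
  obtain ⟨g, g', t, d, h1, h2, h3, h4⟩ := act_eq (Z := ZZ Z) (τ := τ) hf
  rw [h1]
  exact hc.claim h2 t d

theorem Lok.enter {C0 : Finset (Sym2 (Fin N))} (hc : Lok q h b C0 s)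
    (hn : Nn s) : Lok q h b s.C (enter q h b C0 s) := by
  intro A hA hA0
  by_cases h1 : (ed A \ C0).card ≤ h
  · obtain ⟨d, hd, hd2⟩ := hc A hA h1
    refine ⟨d, hd, ?_⟩
    show _ ≤ s.c (Sum.inr A) + (if A.card = q ∧ (ed A \ s.C).card ≤ h ∧
      h < (ed A \ C0).card then b else 0)
    rw [if_neg (by omega), add_zero]
    exact hd2
  · refine ⟨0, by rw [Nat.zero_add]; exact hA0, ?_⟩
    show _ ≤ s.c (Sum.inr A) + (if A.card = q ∧ (ed A \ s.C).card ≤ h ∧
      h < (ed A \ C0).card then b else 0)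
    rw [if_pos ⟨hA, hA0, not_le.1 h1⟩, pow_zero, mul_one]
    have := hn (Sum.inr A)
    linarith

theorem Cst.enter (hc : Cst Z a s) (C0 : Finset (Sym2 (Fin N))) :
    Cst Z a (enter q h b C0 s) := by
  intro i
  show s.c (Sum.inl i) + 0 = _
  rw [add_zero]
  exact hc i

theorem Inv.enter (hs : Inv τ s) (hb : 0 ≤ b) (C0 : Finset (Sym2 (Fin N))) :
    Inv τ (C0up.enter q h b C0 s) := by
  refine ⟨?_, hs.bank0, hs.bankl, hs.tib, hs.trs, hs.trb, hs.ind, hs.pC, hs.acy, hs.ndC,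
    hs.ndK, hs.CK⟩
  intro j
  have h1 := hs.nn j
  rcases j with i | A
  · show 0 ≤ s.c (Sum.inl i) + 0
    linarith
  · show 0 ≤ s.c (Sum.inr A) + (if A.card = q ∧ (ed A \ s.C).card ≤ h ∧
      h < (ed A \ C0).card then b else 0)
    split_ifs <;> linarith

/-- the structure mass is at most `Xi` -/
theorem struct_le_V (hc : Cst Z a s) (hs : Inv τ s) :
    ∑ i, a i * s.pos.mass (Z i) ≤ Xi (ZZ Z) s := by
  refine le_trans ?_ (Ph_le_Xi hs.bank0)
  unfold Ph tot
  rw [Fintype.sum_sum_type]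
  have h3 : ∀ i, s.c (Sum.inl i) * w 2 s.C s.K (ZZ Z (Sum.inl i)) =
      a i * s.pos.mass (Z i) := by
    intro i
    rw [hc i, mul_assoc]
    congr 1
    unfold GPos.mass w
    show _ * (if Disjoint (Z i) s.K then _ else _) = if Disjoint (Z i) s.K then _ else _
    split_ifs
    · rw [show ZZ Z (Sum.inl i) = Z i from rfl, one_div, mul_comm]
      rfl
    · rw [mul_zero]
  rw [Finset.sum_congr rfl fun i _ => h3 i]
  have h4 : 0 ≤ ∑ A : Finset (Fin N), s.c (Sum.inr A) * w 2 s.C s.K (ZZ Z (Sum.inr A)) :=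
    Finset.sum_nonneg fun A _ => mul_nonneg (hs.nn _) (w_nonneg (by norm_num))
  linarith

/-- the entering mass -/
theorem Xi_enter (hb : 0 ≤ b) {C0 : Finset (Sym2 (Fin N))} {B : ℝ}
    (hB : ((s.pos.near q h).card : ℝ) ≤ B)
    (hC : ∀ A : Finset (Fin N), (ed A \ C0).card ≤ (ed A \ s.C).card + 2) :
    Xi (ZZ Z) (enter q h b C0 s) ≤ Xi (ZZ Z) s + B * (2 * b * (1 / 2) ^ h) := by
  have h1 : Xi (ZZ Z) (enter q h b C0 s) = Xi (ZZ Z) s +
      tot (ZZ Z) (Sum.elim (fun _ : ι => (0 : ℝ)) (fun A : Finset (Fin N) =>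
        if A.card = q ∧ (ed A \ s.C).card ≤ h ∧ h < (ed A \ C0).card then b else 0)) s.C s.K := by
    unfold Xi Ph
    have h2 : tot (ZZ Z) (enter q h b C0 s).c (enter q h b C0 s).C (enter q h b C0 s).K =
        tot (ZZ Z) s.c s.C s.K + tot (ZZ Z) (Sum.elim (fun _ : ι => (0 : ℝ))
        (fun A : Finset (Fin N) => if A.card = q ∧ (ed A \ s.C).card ≤ h ∧
          h < (ed A \ C0).card then b else 0)) s.C s.K := tot_add
    have h3 : ∑ g ∈ (enter q h b C0 s).free, (enter q h b C0 s).bank g =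
        ∑ g ∈ s.free, s.bank g := rfl
    rw [h2, h3]
    ring
  rw [h1]
  have h5 : tot (ZZ Z) (Sum.elim (fun _ : ι => (0 : ℝ)) (fun A : Finset (Fin N) =>
        if A.card = q ∧ (ed A \ s.C).card ≤ h ∧ h < (ed A \ C0).card then b else 0)) s.C s.K ≤
      B * (2 * b * (1 / 2) ^ h) := by
    unfold tot
    rw [Fintype.sum_sum_type]
    have h6 : ∑ i : ι, (Sum.elim (fun _ : ι => (0 : ℝ)) (fun A : Finset (Fin N) =>
        if A.card = q ∧ (ed A \ s.C).card ≤ h ∧ h < (ed A \ C0).card then b else 0)) (Sum.inl i) *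
        w 2 s.C s.K (ZZ Z (Sum.inl i)) = 0 :=
      Finset.sum_eq_zero fun i _ => by
        show (0 : ℝ) * _ = 0
        rw [zero_mul]
    rw [h6, zero_add]
    have h7 : ∀ A : Finset (Fin N), (Sum.elim (fun _ : ι => (0 : ℝ))
        (fun A : Finset (Fin N) =>
        if A.card = q ∧ (ed A \ s.C).card ≤ h ∧ h < (ed A \ C0).card then b else 0)) (Sum.inr A) *
        w 2 s.C s.K (ZZ Z (Sum.inr A)) ≤
        if A ∈ s.pos.near q h then 2 * b * (1 / 2) ^ h else 0 := by
      intro A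
      show (if A.card = q ∧ (ed A \ s.C).card ≤ h ∧ h < (ed A \ C0).card then b else 0) *
        w 2 s.C s.K (ed A) ≤ _
      have hpos : (0 : ℝ) ≤ if A ∈ s.pos.near q h then 2 * b * (1 / 2) ^ h else 0 := by
        split_ifs
        · positivity
        · exact le_rfl
      by_cases h8 : A.card = q ∧ (ed A \ s.C).card ≤ h ∧ h < (ed A \ C0).card
      · rw [if_pos h8]
        unfold w
        by_cases h9 : Disjoint (ed A) s.K
        · have h10 : A ∈ s.pos.near q h := by
            unfold GPos.near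
            rw [Finset.mem_filter]
            exact ⟨Finset.mem_univ _, h8.1, h9, h8.2.1⟩
          rw [if_pos h9, if_pos h10]
          have h11 := hC A
          have h12 : ((2 : ℝ)⁻¹) ^ ((ed A \ s.C).card) ≤ 2 * (1 / 2) ^ h := by
            have h13 : h ≤ (ed A \ s.C).card + 1 := by omega
            have h14 : ((1 : ℝ) / 2) ^ ((ed A \ s.C).card + 1) ≤ (1 / 2) ^ h :=
              pow_le_pow_of_le_one (by norm_num) (by norm_num) h13
            rw [pow_succ] at h14
            rw [← one_div]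
            linarith
          nlinarith
        · rw [if_neg h9, mul_zero]
          exact hpos
      · rw [if_neg h8, zero_mul]
        exact hpos
    refine (Finset.sum_le_sum fun A _ => h7 A).trans ?_
    rw [← Finset.sum_filter, Finset.sum_const, nsmul_eq_mul, Finset.filter_mem_eq_inter,
      Finset.univ_inter]
    exact mul_le_mul_of_nonneg_right hB (by positivity)
  linarith

end C0up
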