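import Pool.Agent.W_c0up_h38.Tot

/-!
# Avoider's potential: one claim and one round

The objects `Z i` have coefficients `c i`; when Avoider claims `g` with partner `g'`, the coefficient
of the objects which contain both gets the factor `3/4` (so the weight gets the factor `3/2`, and the
factor `2` if the object contains `g` but not `g'`).
-/

set_option autoImplicit false
set_option linter.unusedSectionVars false

namespace C0up

open scoped Classical
open C0lo

variable {N : ℕ} {κ : Type} [Fintype κ]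

/-- the state of the book-keeping of Avoider -/
structure St (N : ℕ) (κ : Type) where
  /-- the coefficients -/
  c : κ → ℝ
  /-- the edges of Avoider -/
  C : Finset (Sym2 (Fin N))
  /-- the edges of Forcer -/
  K : Finset (Sym2 (Fin N))
  /-- the bank accounts -/
  bank : Sym2 (Fin N) → ℝ
  /-- the number of preimages of type I -/
  ti : Sym2 (Fin N) → ℕ
  /-- the rank: the number of preimages of type II -/
  tr : Sym2 (Fin N) → ℕ
  /-- the partner -/
  p : Sym2 (Fin N) → Option (Sym2 (Fin N))

/-- the free edges -/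
noncomputable def St.free (s : St N κ) : Finset (Sym2 (Fin N)) :=
  Finset.univ.filter (fun e => ¬ e.IsDiag ∧ e ∉ s.C ∧ e ∉ s.K)

theorem St.mem_free {s : St N κ} {e : Sym2 (Fin N)} :
    e ∈ s.free ↔ ¬ e.IsDiag ∧ e ∉ s.C ∧ e ∉ s.K := by
  unfold St.free
  rw [Finset.mem_filter]
  exact ⟨fun h => h.2, fun h => ⟨Finset.mem_univ _, h⟩⟩

variable (Z : κ → Finset (Sym2 (Fin N)))

/-- the mass of the objects which contain `e` -/
noncomputable def W (s : St N κ) (e : Sym2 (Fin N)) : ℝ := tote Z s.c s.C s.K e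

/-- the mass of the objects which contain `e` and `e'` -/
noncomputable def W2 (s : St N κ) (e e' : Sym2 (Fin N)) : ℝ :=
  ∑ i, if e ∈ Z i ∧ e' ∈ Z i then s.c i * w 2 s.C s.K (Z i) else 0

/-- the mass of the objects which contain `e` or `e'` -/
noncomputable def Wu (s : St N κ) (e e' : Sym2 (Fin N)) : ℝ := W Z s e + W Z s e' - W2 Z s e e'

/-- the total mass -/
noncomputable def Ph (s : St N κ) : ℝ := tot Z s.c s.C s.K

/-- the total mass and the banks of the free edges -/
noncomputable def Xi (s : St N κ) : ℝ := Ph Z s + ∑ g ∈ s.free, s.bank g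

variable {Z} {s : St N κ} {e e' f f' g g' : Sym2 (Fin N)}

theorem W2_comm : W2 Z s e e' = W2 Z s e' e := by
  unfold W2
  exact Finset.sum_congr rfl fun i _ => by simp only [and_comm]

theorem Wu_comm : Wu Z s e e' = Wu Z s e' e := by
  unfold Wu
  rw [W2_comm]
  ring

/-- the mass of the union as a sum -/
theorem Wu_eq : Wu Z s e e' =
    ∑ i, if e ∈ Z i ∨ e' ∈ Z i then s.c i * w 2 s.C s.K (Z i) else 0 := by
  unfold Wu W tote W2
  rw [← Finset.sum_add_distrib, ← Finset.sum_sub_distrib]
  refine Finset.sum_congr rfl fun i _ => ?_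
  by_cases a1 : e ∈ Z i <;> by_cases a2 : e' ∈ Z i <;>
    simp only [a1, a2, if_true, if_false, and_true, and_false, true_or, or_true,
      or_self] <;> ring

/-- the coefficients are nonnegative -/
def Nn (s : St N κ) : Prop := ∀ i, 0 ≤ s.c i

theorem term_nonneg (hc : Nn s) (i : κ) : 0 ≤ s.c i * w 2 s.C s.K (Z i) :=
  mul_nonneg (hc i) (w_nonneg (by norm_num))

theorem W2_le (hc : Nn s) : W2 Z s e e' ≤ W Z s e := by
  unfold W2 W tote
  refine Finset.sum_le_sum fun i _ => ?_
  have h := term_nonneg (Z := Z) hc i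
  by_cases a1 : e ∈ Z i <;> by_cases a2 : e' ∈ Z i <;>
    simp only [a1, a2, if_true, if_false, and_true, and_false] <;>
    first | exact le_rfl | exact h

/-- the state after Avoider has claimed `g` with partner `g'` (type I if `b`, with deposit `d`) -/
noncomputable def St.claim (Z : κ → Finset (Sym2 (Fin N))) (s : St N κ)
    (g g' : Sym2 (Fin N)) (b : Bool) (d : ℝ) : St N κ where
  c := disc Z s.c g g'
  C := insert g s.C
  K := s.K
  bank := if b then Function.update s.bank g' (s.bank g' + d) else s.bank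
  ti := if b then Function.update s.ti g' (s.ti g' + 1) else s.ti
  tr := if b then s.tr else Function.update s.tr g' (s.tr g' + 1)
  p := Function.update s.p g (some g')

/-- the state after Forcer has claimed `f` -/
noncomputable def St.kill (s : St N κ) (f : Sym2 (Fin N)) : St N κ :=
  { s with K := insert f s.K }

theorem Nn_claim (hc : Nn s) (b : Bool) (d : ℝ) : Nn (s.claim Z g g' b d) :=
  fun i => disc_nonneg (κ := κ) hc i

theorem Nn_kill (hc : Nn s) : Nn (s.kill f) := hc

/-- weight of an object after a claim -/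
theorem claim_term (hg : g ∉ s.C) (b : Bool) (d : ℝ) (i : κ) :
    (s.claim Z g g' b d).c i * w 2 (s.claim Z g g' b d).C (s.claim Z g g' b d).K (Z i) =
      s.c i * w 2 s.C s.K (Z i) + (if g ∈ Z i then s.c i * w 2 s.C s.K (Z i) else 0) -
        1 / 2 * (if g ∈ Z i ∧ g' ∈ Z i then s.c i * w 2 s.C s.K (Z i) else 0) := by
  show disc Z s.c g g' i * w 2 (insert g s.C) s.K (Z i) = _
  rw [w_claim two_ne_zero hg]
  unfold disc
  by_cases a1 : g ∈ Z i <;> by_cases a2 : g' ∈ Z i <;>
    simp only [a1, a2, if_true, if_false, and_true, and_false, and_self] <;> ring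

theorem Ph_claim (hg : g ∉ s.C) (b : Bool) (d : ℝ) :
    Ph Z (s.claim Z g g' b d) = Ph Z s + W Z s g - 1 / 2 * W2 Z s g g' := by
  unfold Ph tot W tote W2
  rw [Finset.mul_sum, ← Finset.sum_add_distrib, ← Finset.sum_sub_distrib]
  exact Finset.sum_congr rfl fun i _ => claim_term hg b d i

/-- the weights do not decrease when Avoider claims an edge -/
theorem claim_mono (hc : Nn s) (hg : g ∉ s.C) (b : Bool) (d : ℝ) (i : κ) :
    s.c i * w 2 s.C s.K (Z i) ≤
      (s.claim Z g g' b d).c i * w 2 (s.claim Z g g' b d).C (s.claim Z g g' b d).K (Z i) := by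
  rw [claim_term hg]
  have h := term_nonneg (Z := Z) hc i
  by_cases a1 : g ∈ Z i <;> by_cases a2 : g' ∈ Z i <;>
    simp only [a1, a2, if_true, if_false, and_true, and_false, and_self] <;> linarith

theorem Wu_mono (hc : Nn s) (hg : g ∉ s.C) (b : Bool) (d : ℝ) :
    Wu Z s e e' ≤ Wu Z (s.claim Z g g' b d) e e' := by
  rw [Wu_eq, Wu_eq]
  refine Finset.sum_le_sum fun i _ => ?_
  have h := claim_mono (Z := Z) (g' := g') hc hg b d i
  split_ifs
  · exact h
  · exact le_rfl

theorem free_claim (b : Bool) (d : ℝ) :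
    (s.claim Z g g' b d).free = s.free.erase g := by
  ext x
  rw [St.mem_free, Finset.mem_erase, St.mem_free]
  show ¬ x.IsDiag ∧ x ∉ insert g s.C ∧ x ∉ s.K ↔ _
  rw [Finset.mem_insert]
  tauto

theorem free_kill : (s.kill f).free = s.free.erase f := by
  ext x
  rw [St.mem_free, Finset.mem_erase, St.mem_free]
  show ¬ x.IsDiag ∧ x ∉ s.C ∧ x ∉ insert f s.K ↔ _
  rw [Finset.mem_insert]
  tauto

/-- the total mass after two kills -/
theorem Ph_kill2 : Ph Z ((s.kill f).kill f') = Ph Z s - Wu Z s f f' := by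
  rw [Wu_eq]
  unfold Ph tot
  rw [← Finset.sum_sub_distrib]
  refine Finset.sum_congr rfl fun i _ => ?_
  show s.c i * w 2 s.C (insert f' (insert f s.K)) (Z i) = _
  rw [w_kill, w_kill]
  by_cases a1 : f ∈ Z i <;> by_cases a2 : f' ∈ Z i <;>
    simp only [a1, a2, if_true, if_false, true_or, or_true, or_self] <;> ring

theorem Xi_kill2 (hb : ∀ g, 0 ≤ s.bank g) :
    Xi Z ((s.kill f).kill f') ≤ Xi Z s - Wu Z s f f' := by
  unfold Xi
  rw [Ph_kill2, free_kill, free_kill]
  have h1 : ∑ g ∈ (s.free.erase f).erase f', s.bank g ≤ ∑ g ∈ s.free, s.bank g :=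
    Finset.sum_le_sum_of_subset_of_nonneg
      ((Finset.erase_subset _ _).trans (Finset.erase_subset _ _)) fun g _ _ => hb g
  have h2 : ∑ g ∈ (s.free.erase f).erase f', ((s.kill f).kill f').bank g =
      ∑ g ∈ (s.free.erase f).erase f', s.bank g := rfl
  rw [h2]
  linarith

/-- cost of a claim of type I -/
theorem Xi_claim_I (hg : g ∈ s.free) (hg' : g' ∈ s.free) (hne : g ≠ g')
    (hb : ∀ g, 0 ≤ s.bank g) :
    Xi Z (s.claim Z g g' true ((W Z s g' - W Z s g) / 2)) ≤ Xi Z s + Wu Z s g g' / 2 := by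
  unfold Xi
  rw [Ph_claim (St.mem_free.1 hg).2.1, free_claim]
  have h1 : ∑ x ∈ s.free.erase g,
      (s.claim Z g g' true ((W Z s g' - W Z s g) / 2)).bank x =
      ∑ x ∈ s.free.erase g, s.bank x + (W Z s g' - W Z s g) / 2 := by
    show ∑ x ∈ s.free.erase g, Function.update s.bank g' (s.bank g' +
      (W Z s g' - W Z s g) / 2) x = _
    have hm : g' ∈ s.free.erase g := Finset.mem_erase.2 ⟨hne.symm, hg'⟩
    rw [← Finset.add_sum_erase _ _ hm, ← Finset.add_sum_erase _ s.bank hm,
      Function.update_self]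
    have h2 : ∑ x ∈ (s.free.erase g).erase g', Function.update s.bank g' (s.bank g' +
        (W Z s g' - W Z s g) / 2) x = ∑ x ∈ (s.free.erase g).erase g', s.bank x :=
      Finset.sum_congr rfl fun x hx =>
        Function.update_of_ne (Finset.mem_erase.1 hx).1 _ _
    rw [h2]
    ring
  have h3 : ∑ x ∈ s.free.erase g, s.bank x ≤ ∑ x ∈ s.free, s.bank x :=
    Finset.sum_le_sum_of_subset_of_nonneg (Finset.erase_subset _ _) fun g _ _ => hb g
  rw [h1]
  unfold Wu
  linarith

/-- cost of a claim of type II of the less popular edge -/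
theorem Xi_claim_II (hg : g ∈ s.free) (hle : W Z s g ≤ W Z s g')
    (hb : ∀ g, 0 ≤ s.bank g) (d : ℝ) :
    Xi Z (s.claim Z g g' false d) ≤ Xi Z s + Wu Z s g g' / 2 := by
  unfold Xi
  rw [Ph_claim (St.mem_free.1 hg).2.1, free_claim]
  have h3 : ∑ x ∈ s.free.erase g, (s.claim Z g g' false d).bank x ≤
      ∑ x ∈ s.free, s.bank x :=
    Finset.sum_le_sum_of_subset_of_nonneg (Finset.erase_subset _ _) fun g _ _ => hb g
  unfold Wu
  linarith

/-- cost of a claim of type II of the more popular edge -/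
theorem Xi_claim_II' {τ : ℝ} (hg : g ∈ s.free)
    (hle : (W Z s g - W Z s g') / 2 ≤ s.bank g + τ) (d : ℝ) :
    Xi Z (s.claim Z g g' false d) ≤ Xi Z s + Wu Z s g g' / 2 + τ := by
  unfold Xi
  rw [Ph_claim (St.mem_free.1 hg).2.1, free_claim]
  have h3 : s.bank g + ∑ x ∈ s.free.erase g, s.bank x = ∑ x ∈ s.free, s.bank x :=
    Finset.add_sum_erase _ _ hg
  have h4 : ∑ x ∈ s.free.erase g, (s.claim Z g g' false d).bank x =
      ∑ x ∈ s.free.erase g, s.bank x := rfl
  rw [h4]
  unfold Wu
  linarith

end C0up
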