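import Pool.Agent.W_c0up_h38.VAct
import Pool.Agent.W_c0up_h38.GPos

/-!
# Avoider's strategy: the states along a play
-/

set_option autoImplicit false
set_option linter.unusedSectionVars false

namespace C0up

open scoped Classical
open C0lo

variable {N : ℕ} {ι : Type} [Fintype ι] {Z : ι → Finset (Sym2 (Fin N))} {a : ι → ℝ} {q h : ℕ}
  {b τ : ℝ} {π : ℕ → Sym2 (Fin N)}

/-- the late objects enter: `C` = edges of Avoider at the previous entering time -/
noncomputable def enter (q h : ℕ) (b : ℝ) (C : Finset (Sym2 (Fin N)))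
    (s : St N (ι ⊕ Finset (Fin N))) : St N (ι ⊕ Finset (Fin N)) where
  c := fun j => s.c j + Sum.elim (fun _ : ι => (0 : ℝ)) (fun A =>
    if A.card = q ∧ (ed A \ s.C).card ≤ h ∧ h < (ed A \ C).card then b else 0) j
  C := s.C
  K := s.K
  bank := s.bank
  ti := s.ti
  tr := s.tr
  p := s.p

/-- the initial state -/
noncomputable def init (a : ι → ℝ) : St N (ι ⊕ Finset (Fin N)) where
  c := Sum.elim a (fun _ => 0)
  C := ∅
  K := ∅
  bank := fun _ => 0
  ti := fun _ => 0
  tr := fun _ => 0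
  p := fun _ => none

/-- the state after `r` rounds (only the edges of Forcer are read from the play) -/
noncomputable def SS [NeZero N] (Z : ι → Finset (Sym2 (Fin N))) (a : ι → ℝ) (q h : ℕ) (b τ : ℝ)
    (π : ℕ → Sym2 (Fin N)) : ℕ → St N (ι ⊕ Finset (Fin N))
  | 0 => init a
  | r + 1 => enter q h b (SS Z a q h b τ π r).C
      (round (ZZ Z) τ (SS Z a q h b τ π r) (π (4 * r + 2)) (π (4 * r + 3)))

theorem SS_congr [NeZero N] {π' : ℕ → Sym2 (Fin N)} {r : ℕ} (hp : ∀ i < 4 * r, π i = π' i) :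
    SS Z a q h b τ π r = SS Z a q h b τ π' r := by
  induction r with
  | zero => rfl
  | succ r ih =>
    have h1 : SS Z a q h b τ π r = SS Z a q h b τ π' r := ih fun i hi => hp i (by omega)
    show enter q h b (SS Z a q h b τ π r).C
      (round (ZZ Z) τ (SS Z a q h b τ π r) (π (4 * r + 2)) (π (4 * r + 3))) =
      enter q h b (SS Z a q h b τ π' r).C
      (round (ZZ Z) τ (SS Z a q h b τ π' r) (π' (4 * r + 2)) (π' (4 * r + 3)))
    rw [h1, hp (4 * r + 2) (by omega), hp (4 * r + 3) (by omega)]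

/-- Avoider's strategy -/
noncomputable def sA [NeZero N] (Z : ι → Finset (Sym2 (Fin N))) (a : ι → ℝ) (q h : ℕ) (b τ : ℝ)
    (l : List (Sym2 (Fin N))) : Sym2 (Fin N) :=
  if l.length % 4 = 0 then mv (ZZ Z) τ (SS Z a q h b τ (sq l) (l.length / 4))
  else mv (ZZ Z) τ (act (ZZ Z) τ (SS Z a q h b τ (sq l) (l.length / 4)))

/-- the function maximised by Avoider -/
noncomputable def vA [NeZero N] (Z : ι → Finset (Sym2 (Fin N))) (a : ι → ℝ) (q h : ℕ) (b τ : ℝ)
    (l : List (Sym2 (Fin N))) (e : Sym2 (Fin N)) : ℝ :=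
  if e = sA Z a q h b τ l then 1 else 0

theorem sA_zero [NeZero N] (π : ℕ → Sym2 (Fin N)) (r : ℕ) :
    sA Z a q h b τ ((List.range (4 * r)).map π) = mv (ZZ Z) τ (SS Z a q h b τ π r) := by
  have hl : ((List.range (4 * r)).map π).length = 4 * r := by
    rw [List.length_map, List.length_range]
  unfold sA
  rw [hl, if_pos (by omega), show 4 * r / 4 = r by omega,
    SS_congr (π' := π) (fun i hi => sq_map π (4 * r) i hi)]

theorem sA_one [NeZero N] (π : ℕ → Sym2 (Fin N)) (r : ℕ) :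
    sA Z a q h b τ ((List.range (4 * r + 1)).map π) =
      mv (ZZ Z) τ (act (ZZ Z) τ (SS Z a q h b τ π r)) := by
  have hl : ((List.range (4 * r + 1)).map π).length = 4 * r + 1 := by
    rw [List.length_map, List.length_range]
  unfold sA
  rw [hl, if_neg (by omega), show (4 * r + 1) / 4 = r by omega,
    SS_congr (π' := π) (fun i hi => sq_map π (4 * r + 1) i (by omega))]

/-- if the edge of the strategy is free, it is played -/
theorem eq_of_max [NeZero N] {l : List (Sym2 (Fin N))} {e : Sym2 (Fin N)}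
    (hmax : vA Z a q h b τ l (sA Z a q h b τ l) ≤ vA Z a q h b τ l e) :
    e = sA Z a q h b τ l := by
  by_contra hne
  unfold vA at hmax
  rw [if_pos rfl, if_neg hne] at hmax
  norm_num at hmax

/-- the position of a state -/
noncomputable def St.pos {κ : Type} (s : St N κ) : GPos N :=
  ⟨s.C, s.K, Finset.univ.filter (fun d : Sym2 (Fin N) × Sym2 (Fin N) => s.p d.1 = some d.2)⟩

theorem St.mem_D {κ : Type} {s : St N κ} {d : Sym2 (Fin N) × Sym2 (Fin N)} :
    d ∈ s.pos.D ↔ s.p d.1 = some d.2 := by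
  unfold St.pos
  rw [Finset.mem_filter]
  exact ⟨fun h => h.2, fun h => ⟨Finset.mem_univ _, h⟩⟩

/-- the position of a state with the invariants is legal -/
theorem Inv.valid {κ : Type} [Fintype κ] {s : St N κ} (hs : Inv τ s) (hN : 2 ≤ N)
    (hτ : 1 / (8 * (N : ℝ) ^ 2) ≤ τ) : s.pos.Valid := by
  have hN' : (2 : ℝ) ≤ N := by exact_mod_cast hN
  have hN2 : (4 : ℝ) ≤ (N : ℝ) ^ 2 := by nlinarith
  have hτ0 : 0 < τ := lt_of_lt_of_le (by positivity) hτ
  refine ⟨hs.ndC, hs.ndK, hs.CK, ?_, ?_, ?_, ?_, ?_⟩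
  · intro d hd
    exact (hs.pC _ _ (St.mem_D.1 hd)).1
  · intro d hd
    exact (hs.pC _ _ (St.mem_D.1 hd)).2
  · intro d hd d' hd' h1
    have h2 := St.mem_D.1 hd
    have h3 := St.mem_D.1 hd'
    rw [h1, h3] at h2
    exact Prod.ext h1 (Option.some.inj h2).symm
  · intro g
    have h1 : (s.pos.D.filter (fun d => d.2 = g)).card = s.ti g + s.tr g := by
      rw [← hs.ind g]
      refine Finset.card_bij' (fun d _ => d.1) (fun e _ => (e, g)) ?_ ?_ ?_ ?_
      · intro d hd
        rw [Finset.mem_filter] at hd ⊢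
        have h2 := St.mem_D.1 hd.1
        exact ⟨(hs.pC _ _ h2).1, by rw [h2, hd.2]⟩
      · intro e he
        rw [Finset.mem_filter] at he ⊢
        exact ⟨St.mem_D.2 he.2, rfl⟩
      · intro d hd
        rw [Finset.mem_filter] at hd
        exact Prod.ext rfl hd.2.symm
      · intro e _
        rfl
    rw [h1, pow_add]
    have h2 : (2 : ℝ) ^ s.ti g ≤ 25 * (N : ℝ) ^ 2 := by
      have h3 := hs.tib g
      have h4 : (2 : ℝ) ^ s.ti g - 1 ≤ 24 * (N : ℝ) ^ 2 := by
        have h5 : ((2 : ℝ) ^ s.ti g - 1) ≤ 3 / τ := by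
          rw [le_div_iff₀ hτ0]
          exact h3
        have h6 : 3 / τ ≤ 24 * (N : ℝ) ^ 2 := by
          rw [div_le_iff₀ hτ0]
          have h7 : 1 ≤ τ * (8 * (N : ℝ) ^ 2) := by
            rwa [div_le_iff₀ (by positivity)] at hτ
          nlinarith
        exact h5.trans h6
      linarith
    have h3 : (2 : ℝ) ^ s.tr g ≤ (N : ℝ) ^ 2 := by
      have h4 : 2 ^ s.tr g ≤ N ^ 2 := by
        refine (hs.trb g).trans ?_
        rw [Nat.choose_two_right]
        have h5 : N * (N - 1) + N = N * N := by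
          obtain ⟨k, rfl⟩ : ∃ k, N = k + 1 := ⟨N - 1, by omega⟩
          rw [Nat.add_sub_cancel]
          ring
        have h6 : N * (N - 1) / 2 ≤ N * (N - 1) := Nat.div_le_self _ _
        rw [pow_two]
        omega
      exact_mod_cast h4
    calc (2 : ℝ) ^ s.ti g * 2 ^ s.tr g ≤ (25 * (N : ℝ) ^ 2) * (N : ℝ) ^ 2 :=
          mul_le_mul h2 h3 (by positivity) (by positivity)
      _ ≤ 32 * (N : ℝ) ^ 4 := by
          have : 0 ≤ (N : ℝ) ^ 4 := by positivity
          nlinarith
  · obtain ⟨tm, h1, _, _⟩ := hs.acy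
    exact ⟨tm, fun d hd => h1 _ _ (St.mem_D.1 hd)⟩

end C0up
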