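import Pool.Agent.W_c0up_h38.VInv

/-!
# Avoider wins: the criterion
-/

set_option autoImplicit false
set_option linter.unusedSectionVars false

namespace C0up

open scoped Classical
open C0lo

variable {N : ℕ} {ι : Type} [Fintype ι] {Z : ι → Finset (Sym2 (Fin N))} {a : ι → ℝ} {q h : ℕ}
  {b τ : ℝ} {π : ℕ → Sym2 (Fin N)}

/-- the state at time `4 r` is correct -/
structure Good [NeZero N] (Z : ι → Finset (Sym2 (Fin N))) (a : ι → ℝ) (q h : ℕ) (b τ : ℝ)
    (π : ℕ → Sym2 (Fin N)) (r : ℕ) : Prop where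
  /-- invariants -/
  inv : Inv τ (SS Z a q h b τ π r)
  /-- edges of Avoider -/
  C : (SS Z a q h b τ π r).C = Cs π (4 * r)
  /-- edges of Forcer -/
  K : (SS Z a q h b τ π r).K = Ks π (4 * r)
  /-- coefficients of the structures -/
  cst : Cst Z a (SS Z a q h b τ π r)
  /-- coefficients of the late objects -/
  lok : Lok q h b (SS Z a q h b τ π r).C (SS Z a q h b τ π r)

theorem init_inv (ha : ∀ i, 0 ≤ a i) :
    Inv τ (init (N := N) a) := by
  refine ⟨?_, fun _ => le_rfl, ?_, ?_, ?_, ?_, ?_, ?_, ?_, ?_, ?_, ?_⟩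
  · intro j
    rcases j with i | A
    · exact ha i
    · exact le_rfl
  · intro g _
    show ((2 : ℝ) ^ 0 - 1) * τ ≤ 0
    rw [pow_zero, sub_self, zero_mul]
  · intro g
    show ((2 : ℝ) ^ 0 - 1) * τ ≤ 3
    rw [pow_zero, sub_self, zero_mul]
    norm_num
  · show ∑ g ∈ (init (N := N) a).free, 2 ^ 0 ≤ N.choose 2
    rw [Finset.sum_const, pow_zero, smul_eq_mul, mul_one]
    have h1 : (init (N := N) a).free =
        Finset.univ.filter (fun e : Sym2 (Fin N) => ¬ e.IsDiag) := by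
      ext e
      rw [St.mem_free, Finset.mem_filter]
      show ¬ e.IsDiag ∧ e ∉ (∅ : Finset (Sym2 (Fin N))) ∧ e ∉ (∅ : Finset (Sym2 (Fin N))) ↔ _
      simp
    rw [h1, ← Fintype.card_subtype, Sym2.card_subtype_not_diag, Fintype.card_fin]
  · intro g
    show 2 ^ 0 ≤ N.choose 2 + 1
    rw [pow_zero]
    omega
  · intro g
    rfl
  · intro e f h
    exact absurd h (by show (none : Option (Sym2 (Fin N))) ≠ some f; exact fun h => by cases h)
  · refine ⟨fun _ => 0, ?_, ?_, ?_⟩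
    · intro e f h
      exact absurd h (by show (none : Option (Sym2 (Fin N))) ≠ some f; exact fun h => by cases h)
    · intro e he
      exact absurd he (Finset.notMem_empty e)
    · intro e _
      rfl
  · intro e he
    exact absurd he (Finset.notMem_empty e)
  · intro e he
    exact absurd he (Finset.notMem_empty e)
  · exact Finset.disjoint_empty_left _

theorem good_zero [NeZero N] (ha : ∀ i, 0 ≤ a i) (hh : h < q.choose 2) :
    Good Z a q h b τ π 0 := by
  refine ⟨init_inv ha, ?_, ?_, ?_, ?_⟩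
  · show ∅ = Cs π 0
    unfold Cs
    rw [Finset.range_zero, Finset.filter_empty, Finset.image_empty]
  · show ∅ = Ks π 0
    unfold Ks
    rw [Finset.range_zero, Finset.filter_empty, Finset.image_empty]
  · intro i
    have h1 : (SS Z a q h b τ π 0).pos.dbl (Z i) = 0 := by
      unfold GPos.dbl
      rw [Finset.card_eq_zero, Finset.filter_eq_empty_iff]
      intro d hd
      have h2 := St.mem_D.1 hd
      exact absurd h2 (by
        show (none : Option (Sym2 (Fin N))) ≠ some d.2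
        exact fun h => by cases h)
    rw [h1, pow_zero, mul_one]
    rfl
  · intro A hA hA0
    exfalso
    have h1 : (ed A \ (SS Z a q h b τ π 0).C).card = q.choose 2 := by
      show (ed A \ ∅).card = _
      rw [Finset.sdiff_empty, card_ed, hA]
    omega

section play

variable [NeZero N] (h1 : ∀ i < N.choose 2, ¬ Sym2.IsDiag (π i))
  (h2 : ∀ i < N.choose 2, ∀ j < N.choose 2, π i = π j → i = j)
  (h3 : ∀ i < N.choose 2, i % 4 < 2 → ∀ e, ¬ Sym2.IsDiag e → (∀ j < i, π j ≠ e) →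
    vA Z a q h b τ ((List.range i).map π) e ≤ vA Z a q h b τ ((List.range i).map π) (π i))

include h1 h2

/-- a free edge has not been played -/
theorem not_played {κ : Type} [Fintype κ] {s : St N κ} {n : ℕ}
    (hC : s.C = Cs π n) (hK : s.K = Ks π n) {e : Sym2 (Fin N)} (he : e ∈ s.free) :
    ∀ j < n, π j ≠ e := by
  intro j hj hje
  rw [St.mem_free, hC, hK] at he
  by_cases h4 : j % 4 < 2
  · exact he.2.1 (mem_Cs.2 ⟨j, hj, h4, hje⟩)
  · exact he.2.2 (mem_Ks.2 ⟨j, hj, by omega, hje⟩)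

/-- an edge which is played later is free -/
theorem free_of_played {κ : Type} [Fintype κ] {s : St N κ} {n m : ℕ} (hnm : n ≤ m) (hm : m < N.choose 2)
    (hC : s.C = Cs π n) (hK : s.K = Ks π n) : π m ∈ s.free := by
  rw [St.mem_free, hC, hK]
  refine ⟨h1 m hm, ?_, ?_⟩
  · intro h4
    obtain ⟨i, hi, _, hie⟩ := mem_Cs.1 h4
    have := h2 i (by omega) m hm hie
    omega
  · intro h4
    obtain ⟨i, hi, _, hie⟩ := mem_Ks.1 h4
    have := h2 i (by omega) m hm hie
    omega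

include h3

theorem good_step (hτ : 0 ≤ τ) (hτ1 : τ ≤ 1 / 8) (hb : 0 ≤ b) {r : ℕ}
    (hr : 4 * (r + 1) ≤ N.choose 2)
    (hg : Good Z a q h b τ π r) (hXi : Xi (ZZ Z) (SS Z a q h b τ π r) ≤ 1) {B : ℝ}
    (hST : ∀ s : St N (ι ⊕ Finset (Fin N)), Inv τ s → Cst Z a s →
      Xi (ZZ Z) s ≤ Xi (ZZ Z) (SS Z a q h b τ π r) + 2 * τ →
      ((s.pos.near q h).card : ℝ) ≤ B) :
    Good Z a q h b τ π (r + 1) ∧
      Xi (ZZ Z) (SS Z a q h b τ π (r + 1)) ≤
        Xi (ZZ Z) (SS Z a q h b τ π r) + 2 * τ + B * (2 * b * (1 / 2) ^ h) := by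
  set s := SS Z a q h b τ π r with hs
  have hfr : ∀ i < 4, π (4 * r + i) ∈ s.free := fun i hi =>
    free_of_played h1 h2 (Nat.le_add_right _ _) (by omega) hg.C hg.K
  have hne : ∀ i j, i < 4 * r + 4 → j < 4 * r + 4 → i ≠ j → π i ≠ π j :=
    fun i j hi hj hij he => hij (h2 i (by omega) j (by omega) he)
  have hcard : 4 ≤ s.free.card := by
    have h4 : (Finset.range 4).image (fun i => π (4 * r + i)) ⊆ s.free := by
      intro e he
      obtain ⟨i, hi, rfl⟩ := Finset.mem_image.1 he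
      exact hfr i (Finset.mem_range.1 hi)
    have h5 : ((Finset.range 4).image (fun i => π (4 * r + i))).card = 4 := by
      rw [Finset.card_image_of_injOn, Finset.card_range]
      intro i hi j hj hij
      have hi' := Finset.mem_range.1 (Finset.mem_coe.1 hi)
      have hj' := Finset.mem_range.1 (Finset.mem_coe.1 hj)
      by_contra hne2
      exact hne (4 * r + i) (4 * r + j) (by omega) (by omega) (by omega) hij
    have := Finset.card_le_card h4
    omega
  have hPh := Ph_le_Xi (Z := ZZ Z) hg.inv.bank0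
  have hc2 : 2 ≤ s.free.card := le_trans (by norm_num) hcard
  obtain ⟨a1, a2, a3, a4, a5, a6, a7, a8⟩ := act_spec (Z := ZZ Z) hg.inv hτ hc2
    (by linarith)
  -- the first edge of Avoider
  have hm1 : π (4 * r) = mv (ZZ Z) τ s := by
    have h4 := h3 (4 * r) (by omega) (by omega) (mv (ZZ Z) τ s) (St.mem_free.1 a3).1
      (not_played h1 h2 hg.C hg.K a3)
    rw [← sA_zero π r] at h4
    exact (eq_of_max h4).trans (sA_zero π r)
  have hC1 : (act (ZZ Z) τ s).C = Cs π (4 * r + 1) := by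
    rw [a4, ← hm1, hg.C, Cs_succ_claim (n := 4 * r) (by omega)]
  have hK1 : (act (ZZ Z) τ s).K = Ks π (4 * r + 1) := by
    rw [a5, hg.K, Ks_succ_claim (n := 4 * r) (by omega)]
  have hc1 : (act (ZZ Z) τ s).free.card = s.free.card - 1 := by
    rw [a6, Finset.card_erase_of_mem a3]
  have hX1 : Xi (ZZ Z) (act (ZZ Z) τ s) ≤ 1 + 1 / 2 + 1 / 8 := by
    obtain ⟨x, hx, y, hy, hxy⟩ := Finset.one_lt_card.1 (show 1 < s.free.card by omega)
    have h4 := a8 x hx y hy hxy
    have h5 := Wu_le_Ph (Z := ZZ Z) hg.inv.nn x y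
    linarith
  have hPh1 := Ph_le_Xi (Z := ZZ Z) a1.bank0
  have hc3 : 2 ≤ (act (ZZ Z) τ s).free.card := by rw [hc1]; omega
  obtain ⟨b1, b2, b3, b4, b5, b6, b7, b8⟩ := act_spec (Z := ZZ Z) a1 hτ hc3
    (by linarith)
  have hm2 : π (4 * r + 1) = mv (ZZ Z) τ (act (ZZ Z) τ s) := by
    have h4 := h3 (4 * r + 1) (by omega) (by omega) (mv (ZZ Z) τ (act (ZZ Z) τ s))
      (St.mem_free.1 b3).1 (not_played h1 h2 hC1 hK1 b3)
    rw [← sA_one π r] at h4
    exact (eq_of_max h4).trans (sA_one π r)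
  have hC2 : (act (ZZ Z) τ (act (ZZ Z) τ s)).C = Cs π (4 * r + 2) := by
    rw [b4, ← hm2, hC1, Cs_succ_claim (n := 4 * r + 1) (by omega)]
  have hK2 : (act (ZZ Z) τ (act (ZZ Z) τ s)).K = Ks π (4 * r + 2) := by
    rw [b5, hK1, Ks_succ_claim (n := 4 * r + 1) (by omega)]
  have hf : π (4 * r + 2) ∈ (act (ZZ Z) τ (act (ZZ Z) τ s)).free :=
    free_of_played h1 h2 le_rfl (by omega) hC2 hK2
  have hf' : π (4 * r + 3) ∈ (act (ZZ Z) τ (act (ZZ Z) τ s)).free :=
    free_of_played h1 h2 (Nat.le_succ _) (by omega) hC2 hK2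
  obtain ⟨c1, c2⟩ := round_spec (Z := ZZ Z) hg.inv hτ hτ1 hcard hXi
    (hne (4 * r + 2) (4 * r + 3) (by omega) (by omega) (by omega)) hf hf'
  set t := round (ZZ Z) τ s (π (4 * r + 2)) (π (4 * r + 3)) with ht
  have htC : t.C = Cs π (4 * (r + 1)) := by
    show (act (ZZ Z) τ (act (ZZ Z) τ s)).C = _
    rw [hC2, show 4 * (r + 1) = 4 * r + 3 + 1 by ring, Cs_succ_kill (n := 4 * r + 3) (by omega),
      Cs_succ_kill (n := 4 * r + 2) (by omega)]
  have htK : t.K = Ks π (4 * (r + 1)) := by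
    show insert (π (4 * r + 3)) (insert (π (4 * r + 2)) (act (ZZ Z) τ (act (ZZ Z) τ s)).K) = _
    rw [hK2, show 4 * (r + 1) = 4 * r + 3 + 1 by ring, Ks_succ_kill (n := 4 * r + 3) (by omega),
      Ks_succ_kill (n := 4 * r + 2) (by omega)]
  have htcst : Cst Z a t := (hg.cst.act hg.inv hc2).act a1 hc3
  have htlok : Lok q h b s.C t := by
    have h4 : Lok q h b s.C (act (ZZ Z) τ (act (ZZ Z) τ s)) :=
      (hg.lok.act hc2).act hc3
    exact h4
  refine ⟨⟨c1.enter hb _, htC, htK, htcst.enter _, htlok.enter c1.nn⟩, ?_⟩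
  have h4 := Xi_enter (Z := Z) (q := q) (h := h) (C0 := s.C) (s := t) hb
    (hST t c1 htcst c2) (by
      intro A
      rw [htC, hg.C]
      have h5 : ed A \ Cs π (4 * r) ⊆
          (ed A \ Cs π (4 * (r + 1))) ∪ {π (4 * r), π (4 * r + 1)} := by
        intro e he
        rw [Finset.mem_sdiff] at he
        rw [Finset.mem_union, Finset.mem_sdiff, Finset.mem_insert, Finset.mem_singleton]
        by_cases h4 : e ∈ Cs π (4 * (r + 1))
        · right
          obtain ⟨i, hi, hi2, hie⟩ := mem_Cs.1 h4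
          by_cases h5 : i < 4 * r
          · exact absurd (mem_Cs.2 ⟨i, h5, hi2, hie⟩) he.2
          · rcases (show i = 4 * r ∨ i = 4 * r + 1 by omega) with h6 | h6
            · left
              rw [← hie, h6]
            · right
              rw [← hie, h6]
        · exact Or.inl ⟨he.1, h4⟩
      refine (Finset.card_le_card h5).trans ((Finset.card_union_le _ _).trans ?_)
      have := Finset.card_le_two (a := π (4 * r)) (b := π (4 * r + 1))
      omega)
  show Xi (ZZ Z) (enter q h b s.C t) ≤ _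
  linarith

end play

/-- **The criterion for Avoider.** Structures `Z i` with coefficients `a i` (total initial mass at
most `1/4`); if in every legal general position with structure mass `< 1` at most `B` alive
`q`-sets have at most `h` unclaimed edges, and `B` is small, then `V(N) < q`. -/
theorem avoidance_lt {B : ℝ} (ha : ∀ i, 0 ≤ a i)
    (hmass : ∑ i, a i * (1 / 2) ^ (Z i).card ≤ 1 / 4) (hB0 : 0 ≤ B)
    (hBN : (N : ℝ) ^ 2 * (B * (16 * (4 / 3) ^ h * (1 / 2) ^ h)) < 1 / 4)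
    (hST : ∀ P : GPos N, P.Valid → ∑ i, a i * P.mass (Z i) < 1 → ((P.near q h).card : ℝ) ≤ B)
    (hN : 2 ≤ N) (hq : 1 ≤ q) (hh2 : 2 ≤ h) (hh : h < q.choose 2) :
    C0ce.avoidance N < q := by
  by_contra hcon
  rw [not_lt] at hcon
  -- a winning strategy of Forcer
  have hbdd : BddAbove {q : ℕ | 2 ≤ q ∧ ∃ σ : List (Sym2 (Fin N)) → Sym2 (Fin N),
    (∀ l : List (Sym2 (Fin N)), l.Nodup → (∀ e ∈ l, ¬ Sym2.IsDiag e) →
        l.length < N.choose 2 → ¬ Sym2.IsDiag (σ l) ∧ σ l ∉ l) ∧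
    ∀ π : ℕ → Sym2 (Fin N),
      (∀ i < N.choose 2, ¬ Sym2.IsDiag (π i)) →
      (∀ i < N.choose 2, ∀ j < N.choose 2, π i = π j → i = j) →
      (∀ i < N.choose 2, 2 ≤ i % 4 → π i = σ ((List.range i).map π)) →
      ∃ s : Finset (Fin N), s.card = q ∧
        ∀ x ∈ s, ∀ y ∈ s, x ≠ y →
          ∃ i < N.choose 2, i % 4 < 2 ∧ π i = s(x, y)} := by
    refine ⟨N, ?_⟩
    rintro k ⟨_, σ, hσ, hwin⟩
    obtain ⟨π, h1, h2, h3, _⟩ := C0ce.play_exists (by omega) (fun i => 2 ≤ i % 4) σ hσ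
      (fun _ _ => 0)
    obtain ⟨s, hs, _⟩ := hwin π h1 h2 h3
    rw [← hs]
    exact (Finset.card_le_univ s).trans (by rw [Fintype.card_fin])
  have hne : {q : ℕ | 2 ≤ q ∧ ∃ σ : List (Sym2 (Fin N)) → Sym2 (Fin N),
    (∀ l : List (Sym2 (Fin N)), l.Nodup → (∀ e ∈ l, ¬ Sym2.IsDiag e) →
        l.length < N.choose 2 → ¬ Sym2.IsDiag (σ l) ∧ σ l ∉ l) ∧
    ∀ π : ℕ → Sym2 (Fin N),
      (∀ i < N.choose 2, ¬ Sym2.IsDiag (π i)) →
      (∀ i < N.choose 2, ∀ j < N.choose 2, π i = π j → i = j) →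
      (∀ i < N.choose 2, 2 ≤ i % 4 → π i = σ ((List.range i).map π)) →
      ∃ s : Finset (Fin N), s.card = q ∧
        ∀ x ∈ s, ∀ y ∈ s, x ≠ y →
          ∃ i < N.choose 2, i % 4 < 2 ∧ π i = s(x, y)}.Nonempty := by
    by_contra hemp
    rw [Set.not_nonempty_iff_eq_empty] at hemp
    have h5 : C0ce.avoidance N = 0 := by
      unfold C0ce.avoidance
      rw [hemp]
      exact csSup_empty
    omega
  obtain ⟨_, σ, hσ, hwin⟩ := Nat.sSup_mem hne hbdd
  have : NeZero N := ⟨by omega⟩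
  have hN' : (2 : ℝ) ≤ N := by exact_mod_cast hN
  have hN2 : (4 : ℝ) ≤ (N : ℝ) ^ 2 := by nlinarith
  set τ : ℝ := 1 / (8 * (N : ℝ) ^ 2) with hτ
  have hτ0 : 0 < τ := by positivity
  have hτ1 : τ ≤ 1 / 8 := by
    rw [hτ]
    apply div_le_div_of_nonneg_left (by norm_num) (by norm_num)
    linarith
  set b : ℝ := 8 * (4 / 3) ^ h with hb
  have hb0 : 0 ≤ b := by positivity
  obtain ⟨π, h1, h2, h3', h4⟩ := C0ce.play_exists (by omega) (fun i => 2 ≤ i % 4) σ hσ
    (vA Z a q h b τ)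
  have h3 : ∀ i < N.choose 2, i % 4 < 2 → ∀ e, ¬ Sym2.IsDiag e → (∀ j < i, π j ≠ e) →
    vA Z a q h b τ ((List.range i).map π) e ≤ vA Z a q h b τ ((List.range i).map π) (π i) :=
    fun i hi hi2 => h4 i hi (by omega)
  set E : ℝ := B * (2 * b * (1 / 2) ^ h) with hE
  have hE0 : 0 ≤ E := by positivity
  have hEN : (N : ℝ) ^ 2 * E < 1 / 4 := by
    rw [hE, hb]
    refine lt_of_eq_of_lt ?_ hBN
    ring
  have hnN : (N.choose 2 : ℝ) ≤ (N : ℝ) ^ 2 := by
    have h5 : N.choose 2 ≤ N ^ 2 := by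
      rw [Nat.choose_two_right]
      have h6 : N * (N - 1) ≤ N * N := Nat.mul_le_mul_left N (Nat.sub_le N 1)
      rw [pow_two]
      omega
    exact_mod_cast h5
  have hτN : (N : ℝ) ^ 2 * τ = 1 / 8 := by
    rw [hτ]
    field_simp
  have hsmall : ∀ r, 4 * r ≤ N.choose 2 → (1 : ℝ) / 4 + r * (2 * τ + E) < 3 / 4 := by
    intro r hr
    have h5 : (4 * (r : ℝ)) ≤ N ^ 2 := by
      have h6 : ((4 * r : ℕ) : ℝ) ≤ (N.choose 2 : ℝ) := by exact_mod_cast hr
      push_cast at h6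
      linarith
    have h6 : (4 * (r : ℝ)) * (2 * τ + E) ≤ N ^ 2 * (2 * τ + E) :=
      mul_le_mul_of_nonneg_right h5 (by linarith)
    have h7 : (N : ℝ) ^ 2 * (2 * τ + E) = 2 * (N ^ 2 * τ) + N ^ 2 * E := by ring
    rw [h7, hτN] at h6
    linarith
  have hXi0 : Xi (ZZ Z) (SS Z a q h b τ π 0) ≤ 1 / 4 := by
    show Ph (ZZ Z) (init a) + ∑ g ∈ (init (N := N) a).free, (0 : ℝ) ≤ 1 / 4
    rw [Finset.sum_const_zero, add_zero]
    unfold Ph tot
    rw [Fintype.sum_sum_type]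
    have h7 : ∑ A : Finset (Fin N), (init (N := N) a).c (Sum.inr A) *
        w 2 (init (N := N) a).C (init (N := N) a).K (ZZ Z (Sum.inr A)) = 0 :=
      Finset.sum_eq_zero fun A _ => by
        show (0 : ℝ) * _ = 0
        rw [zero_mul]
    rw [h7, add_zero]
    refine le_trans (le_of_eq (Finset.sum_congr rfl fun i _ => ?_)) hmass
    show a i * w 2 ∅ ∅ (Z i) = _
    unfold w
    rw [if_pos (Finset.disjoint_empty_right _), Finset.sdiff_empty, one_div]
  have hall : ∀ r, 4 * r ≤ N.choose 2 → Good Z a q h b τ π r ∧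
      Xi (ZZ Z) (SS Z a q h b τ π r) ≤ 1 / 4 + r * (2 * τ + E) := by
    intro r
    induction r with
    | zero =>
      intro _
      refine ⟨good_zero ha hh, ?_⟩
      push_cast
      linarith
    | succ r ih =>
      intro hr
      obtain ⟨g1, g2⟩ := ih (by omega)
      have h5 := hsmall r (by omega)
      have h6 := good_step h1 h2 h3 hτ0.le hτ1 hb0 hr g1 (by linarith) (B := B)
        (fun s hs hc hX => hST _ (hs.valid hN le_rfl)
          (lt_of_le_of_lt (struct_le_V hc hs) (by linarith)))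
      refine ⟨h6.1, ?_⟩
      have h7 := h6.2
      push_cast
      linarith
  -- the clique of Avoider
  obtain ⟨s, hs, hs2⟩ := hwin π h1 h2 h3'
  obtain ⟨A, hAs, hAq⟩ := Finset.exists_subset_card_eq (show q ≤ s.card by rw [hs]; exact hcon)
  have hA : ∀ x ∈ A, ∀ y ∈ A, x ≠ y → ∃ i < N.choose 2, i % 4 < 2 ∧ π i = s(x, y) :=
    fun x hx y hy hxy => hs2 x (hAs hx) y (hAs hy) hxy
  have hAe : ∀ e ∈ ed A, ∃ i < N.choose 2, i % 4 < 2 ∧ π i = e := by
    intro e he
    rw [mem_ed] at he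
    induction e using Sym2.ind with
    | _ u v =>
      exact hA u (he.1 u (Sym2.mem_mk_left u v)) v (he.1 v (Sym2.mem_mk_right u v))
        (fun h => he.2 h)
  set R := N.choose 2 / 4 with hR
  have hR1 : 4 * R ≤ N.choose 2 := by omega
  have hR2 : N.choose 2 ≤ 4 * R + 3 := by omega
  obtain ⟨g1, g2⟩ := hall R hR1
  have hXi := hsmall R hR1
  have hU : (ed A \ Cs π (4 * R)).card ≤ 2 := by
    refine (Finset.card_le_card (t := {π (4 * R), π (4 * R + 1)}) ?_).trans Finset.card_le_two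
    intro e he
    rw [Finset.mem_sdiff] at he
    obtain ⟨i, hi, hi2, hie⟩ := hAe e he.1
    rw [Finset.mem_insert, Finset.mem_singleton, ← hie]
    by_cases h5 : i < 4 * R
    · exact absurd (mem_Cs.2 ⟨i, h5, hi2, hie⟩) he.2
    · rcases (show i = 4 * R ∨ i = 4 * R + 1 by omega) with h6 | h6
      · exact Or.inl (by rw [h6])
      · exact Or.inr (by rw [h6])
  have halive : Disjoint (ed A) (Ks π (4 * R)) := by
    rw [Finset.disjoint_left]
    intro e he hk
    obtain ⟨i, hi, hi2, hie⟩ := hAe e he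
    obtain ⟨j, hj, hj2, hje⟩ := mem_Ks.1 hk
    have := h2 i hi j (by omega) (hie.trans hje.symm)
    omega
  obtain ⟨d, hd, hd2⟩ := g1.lok A hAq (by rw [g1.C]; exact hU.trans hh2)
  have hle : (SS Z a q h b τ π R).c (Sum.inr A) *
      w 2 (SS Z a q h b τ π R).C (SS Z a q h b τ π R).K (ZZ Z (Sum.inr A)) ≤
      Xi (ZZ Z) (SS Z a q h b τ π R) := by
    refine le_trans ?_ (Ph_le_Xi g1.inv.bank0)
    unfold Ph tot
    exact Finset.single_le_sum (f := fun j => (SS Z a q h b τ π R).c j *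
      w 2 (SS Z a q h b τ π R).C (SS Z a q h b τ π R).K (ZZ Z j))
      (fun j _ => mul_nonneg (g1.inv.nn j) (w_nonneg (by norm_num)))
      (Finset.mem_univ (Sum.inr A))
  have hw : (1 : ℝ) / 4 ≤
      w 2 (SS Z a q h b τ π R).C (SS Z a q h b τ π R).K (ZZ Z (Sum.inr A)) := by
    rw [g1.C, g1.K]
    show (1 : ℝ) / 4 ≤ w 2 (Cs π (4 * R)) (Ks π (4 * R)) (ed A)
    unfold w
    rw [if_pos halive]
    have h7 : ((2 : ℝ)⁻¹) ^ 2 ≤ (2⁻¹) ^ (ed A \ Cs π (4 * R)).card :=
      pow_le_pow_of_le_one (by norm_num) (by norm_num) hU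
    norm_num at h7 ⊢
    exact h7
  have hco : 8 ≤ (SS Z a q h b τ π R).c (Sum.inr A) := by
    refine le_trans ?_ hd2
    have h5 : ((3 : ℝ) / 4) ^ h ≤ (3 / 4) ^ d :=
      pow_le_pow_of_le_one (by norm_num) (by norm_num) (by omega)
    have h6 : ((4 : ℝ) / 3) ^ h * (3 / 4) ^ h = 1 := by
      rw [← mul_pow]
      norm_num
    have h7 : b * (3 / 4) ^ h ≤ b * (3 / 4) ^ d := mul_le_mul_of_nonneg_left h5 hb0
    have h8 : b * (3 / 4) ^ h = 8 := by
      rw [hb, mul_assoc, h6, mul_one]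
    linarith
  have hfin : 8 * (1 / 4) ≤ (SS Z a q h b τ π R).c (Sum.inr A) *
      w 2 (SS Z a q h b τ π R).C (SS Z a q h b τ π R).K (ZZ Z (Sum.inr A)) :=
    mul_le_mul hco hw (by norm_num) (by linarith)
  linarith

end C0up
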